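import Pool.Agent.TH618.Touch

/-!
# Gradient and second derivatives of the barriers

`Φ(x) = V(x₀) + F(G(x₀) + g(x_j) + δ ∑_{i ≠ 0} x_i² + τ)`.
-/

set_option autoImplicit false

namespace Pool.Agent.TH618

open Set Filter Topology
open scoped ContDiff

variable {n : ℕ}

/-- a function of one variable with two derivatives at `a` -/
structure TwoDer (V V' : ℝ → ℝ) (V'' a : ℝ) : Prop where
  smooth : ContDiffAt ℝ 2 V a
  d1 : ∀ᶠ s in 𝓝 a, HasDerivAt V (V' s) s
  d2 : HasDerivAt V' V'' a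

theorem hess_of_line {f : EuclideanSpace ℝ (Fin n) → ℝ} {x ξ : EuclideanSpace ℝ (Fin n)}
    {φ : ℝ → ℝ} {c : ℝ} (hf : ContDiffAt ℝ 2 f x)
    (h1 : ∀ᶠ r in 𝓝 (0:ℝ), HasDerivAt (fun r : ℝ => f (x + r • ξ)) (φ r) r)
    (h2 : HasDerivAt φ c 0) : fderiv ℝ f x ξ = φ 0 ∧ hess f x ξ ξ = c := by
  have hdiff : ∀ᶠ y in 𝓝 x, DifferentiableAt ℝ f y := by
    have h1 : ∀ᶠ y in 𝓝 x, ContDiffAt ℝ 2 f y := hf.eventually (by norm_num)
    exact h1.mono (fun y hy => hy.differentiableAt (by norm_num))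
  have hφ' : ∀ᶠ r in 𝓝 (0:ℝ), HasDerivAt (fun r : ℝ => f (x + r • ξ))
      (fderiv ℝ f (x + r • ξ) ξ) r := by
    have := (tendsto_line x ξ).eventually hdiff
    exact this.mono (fun r hr => hasDerivAt_line hr)
  have heq : (fun r : ℝ => fderiv ℝ f (x + r • ξ) ξ) =ᶠ[𝓝 0] φ := by
    filter_upwards [h1, hφ'] with r h3 h4
    exact h4.unique h3
  constructor
  · have := heq.self_of_nhds
    simpa using this
  · have h3 := hasDerivAt_line2 (ξ := ξ) hf
    exact h3.unique (h2.congr_of_eventuallyEq heq)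

section

variable [NeZero n]

/-- the sum of the squares of the coordinates other than `x₀` -/
noncomputable def SS (x : EuclideanSpace ℝ (Fin n)) : ℝ := ∑ i, if i = 0 then 0 else (x i) ^ 2

/-- the inner function -/
noncomputable def Th (j : Fin n) (G g : ℝ → ℝ) (δ τ : ℝ) (x : EuclideanSpace ℝ (Fin n)) : ℝ :=
  G (x 0) + g (x j) + δ * SS x + τ

/-- the barrier -/
noncomputable def Bar (j : Fin n) (V G g F : ℝ → ℝ) (δ τ : ℝ) (x : EuclideanSpace ℝ (Fin n)) : ℝ :=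
  V (x 0) + F (Th j G g δ τ x)

omit [NeZero n] in
theorem contDiff_coord (i : Fin n) : ContDiff ℝ ∞ (fun x : EuclideanSpace ℝ (Fin n) => x i) := by
  fun_prop

theorem contDiff_SS : ContDiff ℝ ∞ (SS : EuclideanSpace ℝ (Fin n) → ℝ) := by
  unfold SS
  apply ContDiff.sum
  intro i _
  split_ifs
  · exact contDiff_const
  · exact (contDiff_coord i).pow 2

theorem contDiffAt_Th {j : Fin n} {G g : ℝ → ℝ} {δ τ : ℝ} {x : EuclideanSpace ℝ (Fin n)}
    (hG : ContDiffAt ℝ 2 G (x 0)) (hg : ContDiffAt ℝ 2 g (x j)) :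
    ContDiffAt ℝ 2 (Th j G g δ τ) x := by
  have h0 : ContDiffAt ℝ 2 (fun x : EuclideanSpace ℝ (Fin n) => x 0) x :=
    ((contDiff_coord 0).of_le (by norm_cast)).contDiffAt
  have hj : ContDiffAt ℝ 2 (fun x : EuclideanSpace ℝ (Fin n) => x j) x :=
    ((contDiff_coord j).of_le (by norm_cast)).contDiffAt
  have hS : ContDiffAt ℝ 2 (SS : EuclideanSpace ℝ (Fin n) → ℝ) x :=
    (contDiff_SS.of_le (by norm_cast)).contDiffAt
  have h1 : ContDiffAt ℝ 2 (fun x : EuclideanSpace ℝ (Fin n) => G (x 0)) x :=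
    ContDiffAt.comp (g := G) x hG h0
  have h2 : ContDiffAt ℝ 2 (fun x : EuclideanSpace ℝ (Fin n) => g (x j)) x :=
    ContDiffAt.comp (g := g) x hg hj
  exact ((h1.add h2).add (contDiffAt_const.mul hS)).add contDiffAt_const

theorem contDiffAt_Bar {j : Fin n} {V G g F : ℝ → ℝ} {δ τ : ℝ} {x : EuclideanSpace ℝ (Fin n)}
    (hV : ContDiffAt ℝ 2 V (x 0)) (hG : ContDiffAt ℝ 2 G (x 0)) (hg : ContDiffAt ℝ 2 g (x j))
    (hF : ContDiffAt ℝ 2 F (Th j G g δ τ x)) :
    ContDiffAt ℝ 2 (Bar j V G g F δ τ) x := by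
  have h0 : ContDiffAt ℝ 2 (fun x : EuclideanSpace ℝ (Fin n) => x 0) x :=
    ((contDiff_coord 0).of_le (by norm_cast)).contDiffAt
  have h1 : ContDiffAt ℝ 2 (fun x : EuclideanSpace ℝ (Fin n) => V (x 0)) x :=
    ContDiffAt.comp (g := V) x hV h0
  exact h1.add (ContDiffAt.comp (g := F) x hF (contDiffAt_Th hG hg))

/-- the coefficients of the derivative of `Th` in the coordinates other than `x₀` -/
noncomputable def pp (j : Fin n) (g' δ : ℝ) (x : EuclideanSpace ℝ (Fin n)) (i : Fin n) : ℝ :=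
  if i = 0 then 0 else (if i = j then g' else 0) + 2 * δ * x i

theorem bar_line {j : Fin n} (hj : j ≠ 0) {V G g F V' G' g' F' : ℝ → ℝ} {V'' G'' g'' F'' δ τ : ℝ}
    {x : EuclideanSpace ℝ (Fin n)}
    (hV : TwoDer V V' V'' (x 0)) (hG : TwoDer G G' G'' (x 0)) (hg : TwoDer g g' g'' (x j))
    (hF : TwoDer F F' F'' (Th j G g δ τ x)) (ξ : EuclideanSpace ℝ (Fin n)) :
    fderiv ℝ (Bar j V G g F δ τ) x ξ =
      (V' (x 0) + F' (Th j G g δ τ x) * G' (x 0)) * ξ 0 +
        F' (Th j G g δ τ x) * ∑ i, pp j (g' (x j)) δ x i * ξ i ∧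
    hess (Bar j V G g F δ τ) x ξ ξ =
      V'' * ξ 0 ^ 2 + F'' * (G' (x 0) * ξ 0 + ∑ i, pp j (g' (x j)) δ x i * ξ i) ^ 2 +
        F' (Th j G g δ τ x) * (G'' * ξ 0 ^ 2 + g'' * ξ j ^ 2 + 2 * δ * SS ξ) := by
  have hcoord : ∀ (i : Fin n) (r : ℝ), HasDerivAt (fun r : ℝ => (x + r • ξ) i) (ξ i) r := by
    intro i r
    have h1 : HasDerivAt (fun r : ℝ => x i + r * ξ i) (ξ i) r := by
      simpa using ((hasDerivAt_id r).mul_const (ξ i)).const_add (x i)
    simpa using h1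
  have hcont : ∀ i : Fin n, Tendsto (fun r : ℝ => (x + r • ξ) i) (𝓝 0) (𝓝 (x i)) := by
    intro i
    have := (hcoord i 0).continuousAt.tendsto
    simpa using this
  have hSSd : ∀ r : ℝ, HasDerivAt (fun r : ℝ => SS (x + r • ξ))
      (∑ i, if i = 0 then 0 else 2 * (x i + r * ξ i) * ξ i) r := by
    intro r
    unfold SS
    apply HasDerivAt.fun_sum
    intro i _
    split_ifs
    · exact hasDerivAt_const _ _
    · have h1 := (hcoord i r).fun_pow 2
      simpa using h1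
  have hThd : ∀ᶠ r in 𝓝 (0:ℝ), HasDerivAt (fun r : ℝ => Th j G g δ τ (x + r • ξ))
      (G' ((x + r • ξ) 0) * ξ 0 + g' ((x + r • ξ) j) * ξ j +
        δ * (∑ i, if i = 0 then 0 else 2 * (x i + r * ξ i) * ξ i)) r := by
    filter_upwards [(hcont 0).eventually hG.d1, (hcont j).eventually hg.d1] with r h1 h2
    have e1 := h1.comp r (hcoord 0 r)
    have e2 := h2.comp r (hcoord j r)
    have e3 := (hSSd r).const_mul δ
    exact ((e1.add e2).add e3).add_const τ
  have hThc : Tendsto (fun r : ℝ => Th j G g δ τ (x + r • ξ)) (𝓝 0) (𝓝 (Th j G g δ τ x)) := by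
    have := hThd.self_of_nhds.continuousAt.tendsto
    simpa using this
  have h1 : ∀ᶠ r in 𝓝 (0:ℝ), HasDerivAt (fun r : ℝ => Bar j V G g F δ τ (x + r • ξ))
      (V' ((x + r • ξ) 0) * ξ 0 + F' (Th j G g δ τ (x + r • ξ)) *
        (G' ((x + r • ξ) 0) * ξ 0 + g' ((x + r • ξ) j) * ξ j +
        δ * (∑ i, if i = 0 then 0 else 2 * (x i + r * ξ i) * ξ i))) r := by
    filter_upwards [(hcont 0).eventually hV.d1, hThc.eventually hF.d1, hThd] with r h1 h2 h3
    exact (h1.comp r (hcoord 0 r)).add (h2.comp r h3)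
  have hx0 : x + (0:ℝ) • ξ = x := by simp
  -- second derivative of `Th`
  have hTh2 : HasDerivAt (fun r : ℝ => G' ((x + r • ξ) 0) * ξ 0 + g' ((x + r • ξ) j) * ξ j +
        δ * (∑ i, if i = 0 then 0 else 2 * (x i + r * ξ i) * ξ i))
      (G'' * ξ 0 ^ 2 + g'' * ξ j ^ 2 + 2 * δ * SS ξ) 0 := by
    have e1 : HasDerivAt (fun r : ℝ => G' ((x + r • ξ) 0)) (G'' * ξ 0) 0 := by
      have := hG.d2
      apply HasDerivAt.comp (h₂ := G') (h := fun r : ℝ => (x + r • ξ) 0) 0 _ (hcoord 0 0)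
      rw [hx0]; exact this
    have e2 : HasDerivAt (fun r : ℝ => g' ((x + r • ξ) j)) (g'' * ξ j) 0 := by
      have := hg.d2
      apply HasDerivAt.comp (h₂ := g') (h := fun r : ℝ => (x + r • ξ) j) 0 _ (hcoord j 0)
      rw [hx0]; exact this
    have e3 : HasDerivAt (fun r : ℝ => ∑ i : Fin n, if i = 0 then 0 else 2 * (x i + r * ξ i) * ξ i)
        (∑ i : Fin n, if i = 0 then 0 else 2 * ξ i ^ 2) 0 := by
      apply HasDerivAt.fun_sum
      intro i _
      split_ifs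
      · exact hasDerivAt_const _ _
      · have h5 : HasDerivAt (fun r : ℝ => x i + r * ξ i) (ξ i) 0 := by
          simpa using ((hasDerivAt_id (0:ℝ)).mul_const (ξ i)).const_add (x i)
        have h6 := (h5.const_mul 2).mul_const (ξ i)
        have e : 2 * ξ i * ξ i = 2 * ξ i ^ 2 := by ring
        rw [e] at h6
        exact h6
    have e4 := ((e1.mul_const (ξ 0)).add (e2.mul_const (ξ j))).add (e3.const_mul δ)
    have e5 : G'' * ξ 0 * ξ 0 + g'' * ξ j * ξ j + δ * (∑ i : Fin n, if i = 0 then 0 else 2 * ξ i ^ 2) =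
        G'' * ξ 0 ^ 2 + g'' * ξ j ^ 2 + 2 * δ * SS ξ := by
      have : (∑ i : Fin n, if i = 0 then 0 else 2 * ξ i ^ 2) = 2 * SS ξ := by
        unfold SS
        rw [Finset.mul_sum]
        apply Finset.sum_congr rfl
        intro i _
        split_ifs <;> ring
      rw [this]; ring
    rw [e5] at e4
    exact e4
  have hsum : G' (x 0) * ξ 0 + g' (x j) * ξ j +
        δ * (∑ i, if i = 0 then 0 else 2 * (x i + 0 * ξ i) * ξ i) =
      G' (x 0) * ξ 0 + ∑ i, pp j (g' (x j)) δ x i * ξ i := by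
    have e1 : ∑ i, pp j (g' (x j)) δ x i * ξ i =
        (∑ i, if i = j then g' (x j) * ξ j else 0) +
          ∑ i, if i = 0 then 0 else 2 * δ * x i * ξ i := by
      rw [← Finset.sum_add_distrib]
      apply Finset.sum_congr rfl
      intro i _
      unfold pp
      by_cases hi : i = 0
      · subst hi
        simp [Ne.symm hj]
      · by_cases hij : i = j
        · subst hij; simp [hi]; ring
        · simp [hi, hij]
    rw [e1]
    have e2 : δ * (∑ i, if i = 0 then 0 else 2 * (x i + 0 * ξ i) * ξ i) =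
        ∑ i, if i = 0 then 0 else 2 * δ * x i * ξ i := by
      rw [Finset.mul_sum]
      apply Finset.sum_congr rfl
      intro i _
      split_ifs <;> ring
    rw [e2]
    simp
    ring
  have h2 : HasDerivAt (fun r : ℝ => V' ((x + r • ξ) 0) * ξ 0 + F' (Th j G g δ τ (x + r • ξ)) *
        (G' ((x + r • ξ) 0) * ξ 0 + g' ((x + r • ξ) j) * ξ j +
        δ * (∑ i, if i = 0 then 0 else 2 * (x i + r * ξ i) * ξ i)))
      (V'' * ξ 0 ^ 2 + F'' * (G' (x 0) * ξ 0 + ∑ i, pp j (g' (x j)) δ x i * ξ i) ^ 2 +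
        F' (Th j G g δ τ x) * (G'' * ξ 0 ^ 2 + g'' * ξ j ^ 2 + 2 * δ * SS ξ)) 0 := by
    have e1 : HasDerivAt (fun r : ℝ => V' ((x + r • ξ) 0)) (V'' * ξ 0) 0 := by
      have := hV.d2
      apply HasDerivAt.comp (h₂ := V') (h := fun r : ℝ => (x + r • ξ) 0) 0 _ (hcoord 0 0)
      rw [hx0]; exact this
    have e2 : HasDerivAt (fun r : ℝ => F' (Th j G g δ τ (x + r • ξ)))
        (F'' * (G' (x 0) * ξ 0 + ∑ i, pp j (g' (x j)) δ x i * ξ i)) 0 := by
      have h3 := hThd.self_of_nhds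
      rw [hx0, hsum] at h3
      apply HasDerivAt.comp (h₂ := F') (h := fun r : ℝ => Th j G g δ τ (x + r • ξ)) 0 _ h3
      rw [hx0]; exact hF.d2
    have e3 := (e1.mul_const (ξ 0)).add (e2.mul hTh2)
    have e4 : V'' * ξ 0 * ξ 0 + (F'' * (G' (x 0) * ξ 0 + ∑ i, pp j (g' (x j)) δ x i * ξ i) *
        (G' ((x + (0:ℝ) • ξ) 0) * ξ 0 + g' ((x + (0:ℝ) • ξ) j) * ξ j +
        δ * (∑ i, if i = 0 then 0 else 2 * (x i + 0 * ξ i) * ξ i)) +
        F' (Th j G g δ τ (x + (0:ℝ) • ξ)) * (G'' * ξ 0 ^ 2 + g'' * ξ j ^ 2 + 2 * δ * SS ξ)) =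
      V'' * ξ 0 ^ 2 + F'' * (G' (x 0) * ξ 0 + ∑ i, pp j (g' (x j)) δ x i * ξ i) ^ 2 +
        F' (Th j G g δ τ x) * (G'' * ξ 0 ^ 2 + g'' * ξ j ^ 2 + 2 * δ * SS ξ) := by
      rw [hx0, hsum]; ring
    rw [e4] at e3
    exact e3
  have h3 := hess_of_line (contDiffAt_Bar hV.smooth hG.smooth hg.smooth hF.smooth) h1 h2
  refine ⟨?_, h3.2⟩
  rw [h3.1, hx0, hsum]
  ring

theorem pp_zero (j : Fin n) (g' δ : ℝ) (x : EuclideanSpace ℝ (Fin n)) : pp j g' δ x 0 = 0 := by
  simp [pp]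

/-- the sum of the squares of the coefficients -/
noncomputable def PP (j : Fin n) (g' δ : ℝ) (x : EuclideanSpace ℝ (Fin n)) : ℝ :=
  ∑ i, (pp j g' δ x i) ^ 2

theorem PP_nonneg (j : Fin n) (g' δ : ℝ) (x : EuclideanSpace ℝ (Fin n)) : 0 ≤ PP j g' δ x :=
  Finset.sum_nonneg (fun _ _ => sq_nonneg _)

theorem pp_sq_le (j : Fin n) (g' δ : ℝ) (x : EuclideanSpace ℝ (Fin n)) (i : Fin n) :
    (pp j g' δ x i) ^ 2 ≤ PP j g' δ x :=
  Finset.single_le_sum (f := fun i => (pp j g' δ x i) ^ 2) (fun _ _ => sq_nonneg _)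
    (Finset.mem_univ i)

theorem mop_bar {j : Fin n} (hj : j ≠ 0) {V G g F V' G' g' F' : ℝ → ℝ} {V'' G'' g'' F'' δ τ : ℝ}
    {x : EuclideanSpace ℝ (Fin n)}
    (hV : TwoDer V V' V'' (x 0)) (hG : TwoDer G G' G'' (x 0)) (hg : TwoDer g g' g'' (x j))
    (hF : TwoDer F F' F'' (Th j G g δ τ x)) {q₀ f₁ P : ℝ}
    (hf₁ : f₁ = F' (Th j G g δ τ x)) (hq₀ : q₀ = V' (x 0) + f₁ * G' (x 0))
    (hP : P = PP j (g' (x j)) δ x) :
    mop (Bar j V G g F δ τ) x =
      V'' + F'' * G' (x 0) ^ 2 + f₁ * G'' + F'' * P + f₁ * (g'' + 2 * δ * (n - 1)) -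
      (V'' * q₀ ^ 2 + F'' * (G' (x 0) * q₀ + f₁ * P) ^ 2 + f₁ * (G'' * q₀ ^ 2 +
        g'' * f₁ ^ 2 * (pp j (g' (x j)) δ x j) ^ 2 + 2 * δ * f₁ ^ 2 * P)) /
        (1 + (q₀ ^ 2 + f₁ ^ 2 * P)) := by
  classical
  have hline := bar_line hj hV hG hg hF
  rw [← hf₁] at hline
  set f := Bar j V G g F δ τ with hf
  set c := pp j (g' (x j)) δ x with hc
  have hc0 : c 0 = 0 := pp_zero _ _ _ _
  -- the gradient
  have hq : ∀ i, gradient f x i = (if i = 0 then q₀ else 0) + f₁ * c i := by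
    intro i
    rw [gradient_apply, (hline _).1]
    have e1 : ∑ k, c k * (EuclideanSpace.single i (1:ℝ)) k = c i := by
      simp
    rw [e1, ← hq₀]
    by_cases hi : i = 0
    · subst hi; simp
    · simp [hi, Ne.symm hi]
  have hq0 : gradient f x 0 = q₀ := by rw [hq]; simp [hc0]
  have hqj : gradient f x j = f₁ * c j := by rw [hq]; simp [hj]
  have hqc : ∑ i, c i * gradient f x i = f₁ * P := by
    rw [hP]
    unfold PP
    rw [Finset.mul_sum]
    apply Finset.sum_congr rfl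
    intro i _
    rw [hq]
    by_cases hi : i = 0
    · subst hi; rw [← hc, hc0]; simp
    · simp only [hi, if_false, ← hc]; ring
  have hSS : SS (gradient f x) = f₁ ^ 2 * P := by
    rw [hP]
    unfold SS PP
    rw [Finset.mul_sum]
    apply Finset.sum_congr rfl
    intro i _
    rw [hq]
    by_cases hi : i = 0
    · subst hi; rw [← hc, hc0]; simp
    · simp only [hi, if_false, ← hc]; ring
  have hnorm : ‖gradient f x‖ ^ 2 = q₀ ^ 2 + f₁ ^ 2 * P := by
    rw [EuclideanSpace.norm_sq_eq, ← hSS]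
    unfold SS
    have e1 : q₀ ^ 2 = ∑ i : Fin n, if i = 0 then q₀ ^ 2 else 0 := by simp
    rw [e1, ← Finset.sum_add_distrib]
    apply Finset.sum_congr rfl
    intro i _
    by_cases hi : i = 0
    · subst hi; rw [hq0]; simp
    · simp [hi]
  -- the trace
  have htr : ∑ i, hess f x (EuclideanSpace.single i 1) (EuclideanSpace.single i 1) =
      V'' + F'' * G' (x 0) ^ 2 + f₁ * G'' + F'' * P + f₁ * (g'' + 2 * δ * (n - 1)) := by
    have e1 : ∀ i, hess f x (EuclideanSpace.single i 1) (EuclideanSpace.single i 1) =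
        (if i = 0 then V'' + F'' * G' (x 0) ^ 2 + f₁ * G'' else 0) + F'' * (c i) ^ 2 +
        (if i = j then f₁ * g'' else 0) + (if i = 0 then 0 else f₁ * (2 * δ)) := by
      intro i
      rw [(hline _).2]
      have e1 : ∑ k, c k * (EuclideanSpace.single i (1:ℝ)) k = c i := by
        simp
      have e2 : SS (EuclideanSpace.single i (1:ℝ)) = if i = 0 then 0 else 1 := by
        unfold SS
        have : ∀ k : Fin n, (if k = 0 then (0:ℝ) else ((EuclideanSpace.single i (1:ℝ)) k) ^ 2) =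
            if k = i then (if i = 0 then 0 else 1) else 0 := by
          intro k
          by_cases hk : k = i
          · subst hk; simp
          · simp [hk]
        rw [Finset.sum_congr rfl (fun k _ => this k)]
        simp
      rw [e1, e2]
      by_cases hi : i = 0
      · subst hi
        have : (EuclideanSpace.single (0 : Fin n) (1:ℝ)) j = 0 := by simp [hj]
        rw [this, hc0]
        simp [Ne.symm hj]
      · have h0 : (EuclideanSpace.single i (1:ℝ)) 0 = 0 := by simp [Ne.symm hi]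
        rw [h0]
        by_cases hij : i = j
        · subst hij; simp [hi]; ring
        · have : (EuclideanSpace.single i (1:ℝ)) j = 0 := by simp [Ne.symm hij]
          rw [this]; simp [hi, hij]
    rw [Finset.sum_congr rfl (fun i _ => e1 i)]
    rw [Finset.sum_add_distrib, Finset.sum_add_distrib, Finset.sum_add_distrib, ← Finset.mul_sum]
    have e3 : ∑ i : Fin n, (if i = 0 then 0 else f₁ * (2 * δ)) = f₁ * (2 * δ * (n - 1)) := by
      have e4 : ∀ i : Fin n, (if i = 0 then 0 else f₁ * (2 * δ)) =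
          f₁ * (2 * δ) - (if i = 0 then f₁ * (2 * δ) else 0) := by
        intro i; split_ifs <;> ring
      rw [Finset.sum_congr rfl (fun i _ => e4 i), Finset.sum_sub_distrib]
      simp
      ring
    have e5 : ∑ i, c i ^ 2 = P := by rw [hP]; rfl
    rw [e3, e5]
    simp
    ring
  have hqq : hess f x (gradient f x) (gradient f x) =
      V'' * q₀ ^ 2 + F'' * (G' (x 0) * q₀ + f₁ * P) ^ 2 + f₁ * (G'' * q₀ ^ 2 +
        g'' * f₁ ^ 2 * (c j) ^ 2 + 2 * δ * f₁ ^ 2 * P) := by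
    rw [(hline _).2, hqc, hSS, hq0, hqj]
    ring
  unfold mop
  rw [htr, hqq, hnorm]

end

end Pool.Agent.TH618
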