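import Pool.Agent.TH618.Barrier

/-!
# Definitions and the comparison theorem
-/

set_option autoImplicit false

namespace Pool.Agent.TH618

open Set Filter Topology
open scoped ContDiff

/-- The slab `U = (-π/2, π/2) × ℝ^{n-1}` in `ℝⁿ` (the first coordinate is `x 0`). -/
def slab (n : ℕ) [NeZero n] : Set (EuclideanSpace ℝ (Fin n)) :=
  {x | -(Real.pi / 2) < x 0 ∧ x 0 < Real.pi / 2}

/-- The initial height `v₀(x) = -log (cos x₁)` of the grim reaper. -/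
noncomputable def grim (n : ℕ) [NeZero n] (x : EuclideanSpace ℝ (Fin n)) : ℝ :=
  -Real.log (Real.cos (x 0))

/-- `u` is a graphical solution to mean curvature flow over the open set `U`: it is smooth on
`U × (0, ∞)`, continuous on `U × [0, ∞)`, and
`u_t = √(1 + |Du|²) div (Du / √(1 + |Du|²))` on `U × (0, ∞)`. -/
structure IsGraphicalSolution {n : ℕ} (U : Set (EuclideanSpace ℝ (Fin n)))
    (u : EuclideanSpace ℝ (Fin n) → ℝ → ℝ) : Prop where
  smooth : ContDiffOn ℝ ∞ (fun p : EuclideanSpace ℝ (Fin n) × ℝ => u p.1 p.2) (U ×ˢ Ioi 0)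
  continuous : ContinuousOn (fun p : EuclideanSpace ℝ (Fin n) × ℝ => u p.1 p.2) (U ×ˢ Ici 0)
  equation : ∀ x ∈ U, ∀ t : ℝ, 0 < t → deriv (fun s => u x s) t =
    Real.sqrt (1 + ‖gradient (fun y => u y t) x‖ ^ 2) *
      divergence (fun y => (Real.sqrt (1 + ‖gradient (fun z => u z t) y‖ ^ 2))⁻¹ •
        gradient (fun z => u z t) y) x

/-- `u₀` is a perturbation of the grim reaper with `C⁰` decay: it is locally Lipschitz on the slab
`U` and `|u₀ - v₀| → 0` as `x` leaves every compact subset of `U`. -/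
structure IsDecayingPerturbation (n : ℕ) [NeZero n] (u₀ : EuclideanSpace ℝ (Fin n) → ℝ) :
    Prop where
  lipschitz : LocallyLipschitzOn (slab n) u₀
  decay : ∀ ε : ℝ, 0 < ε → ∃ K ⊆ slab n, IsCompact K ∧
    ∀ x ∈ slab n \ K, |u₀ x - grim n x| < ε

variable {n : ℕ}

/-- the working form of the equation -/
structure Sol (U : Set (EuclideanSpace ℝ (Fin n))) (u : EuclideanSpace ℝ (Fin n) → ℝ → ℝ) :
    Prop where
  cont : ContinuousOn (fun p : EuclideanSpace ℝ (Fin n) × ℝ => u p.1 p.2) (U ×ˢ Ici 0)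
  c2 : ∀ x ∈ U, ∀ t : ℝ, 0 < t → ContDiffAt ℝ 2 (fun y => u y t) x
  eqn : ∀ x ∈ U, ∀ t : ℝ, 0 < t → HasDerivAt (fun s => u x s) (mop (fun y => u y t) x) t

theorem IsGraphicalSolution.sol {U : Set (EuclideanSpace ℝ (Fin n))} (hU : IsOpen U)
    {u : EuclideanSpace ℝ (Fin n) → ℝ → ℝ} (hu : IsGraphicalSolution U u) : Sol U u := by
  have hat : ∀ x ∈ U, ∀ t : ℝ, 0 < t → ContDiffAt ℝ ∞
      (fun p : EuclideanSpace ℝ (Fin n) × ℝ => u p.1 p.2) (x, t) := fun x hx t ht =>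
    hu.smooth.contDiffAt ((hU.prod isOpen_Ioi).mem_nhds ⟨hx, ht⟩)
  have hc2 : ∀ x ∈ U, ∀ t : ℝ, 0 < t → ContDiffAt ℝ 2 (fun y => u y t) x := by
    intro x hx t ht
    have h1 : ContDiffAt ℝ ∞ (fun z : EuclideanSpace ℝ (Fin n) => (z, t)) x :=
      contDiffAt_id.prodMk contDiffAt_const
    have h2 : ContDiffAt ℝ ∞ (fun y => u y t) x :=
      ContDiffAt.comp (g := fun p : EuclideanSpace ℝ (Fin n) × ℝ => u p.1 p.2)
        (f := fun z : EuclideanSpace ℝ (Fin n) => (z, t)) x (hat x hx t ht) h1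
    exact h2.of_le (by norm_cast)
  refine ⟨hu.continuous, hc2, fun x hx t ht => ?_⟩
  have h1 : ContDiffAt ℝ ∞ (fun s : ℝ => (x, s)) t := contDiffAt_const.prodMk contDiffAt_id
  have h2 : ContDiffAt ℝ ∞ (fun s => u x s) t :=
    ContDiffAt.comp (g := fun p : EuclideanSpace ℝ (Fin n) × ℝ => u p.1 p.2)
      (f := fun s : ℝ => (x, s)) t (hat x hx t ht) h1
  have h3 := (h2.differentiableAt (by simp)).hasDerivAt
  rw [hu.equation x hx t ht, mcf_expand (hc2 x hx t ht)] at h3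
  exact h3

theorem gradient_neg (f : EuclideanSpace ℝ (Fin n) → ℝ) (x : EuclideanSpace ℝ (Fin n)) :
    gradient (fun y => -f y) x = -gradient f x := by
  have : fderiv ℝ (fun y => -f y) x = -fderiv ℝ f x := fderiv_fun_neg
  rw [gradient, gradient, this, map_neg]

theorem hess_neg (f : EuclideanSpace ℝ (Fin n) → ℝ) (x ξ η : EuclideanSpace ℝ (Fin n)) :
    hess (fun y => -f y) x ξ η = -hess f x ξ η := by
  have h1 : fderiv ℝ (fun y => -f y) = fun y => -fderiv ℝ f y := by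
    funext y; exact fderiv_fun_neg
  unfold hess
  rw [h1, fderiv_fun_neg]
  rfl

theorem mop_neg (f : EuclideanSpace ℝ (Fin n) → ℝ) (x : EuclideanSpace ℝ (Fin n)) :
    mop (fun y => -f y) x = -mop f x := by
  unfold mop
  rw [gradient_neg, norm_neg]
  have h1 : hess (fun y => -f y) x (-gradient f x) (-gradient f x) =
      -hess f x (gradient f x) (gradient f x) := by
    rw [hess_neg]
    simp [hess]
  rw [h1]
  simp only [hess_neg, Finset.sum_neg_distrib]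
  ring

theorem Sol.neg {U : Set (EuclideanSpace ℝ (Fin n))} {u : EuclideanSpace ℝ (Fin n) → ℝ → ℝ}
    (hu : Sol U u) : Sol U (fun x t => -u x t) := by
  refine ⟨hu.cont.neg, fun x hx t ht => (hu.c2 x hx t ht).neg, fun x hx t ht => ?_⟩
  rw [mop_neg]
  exact (hu.eqn x hx t ht).neg

/-- **Comparison theorem** with a strict supersolution on an open space-time set. -/
theorem comparison {U : Set (EuclideanSpace ℝ (Fin n))} {u Φ : EuclideanSpace ℝ (Fin n) → ℝ → ℝ}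
    (hu : Sol U u) {T : ℝ} {Ω K : Set (EuclideanSpace ℝ (Fin n) × ℝ)} (hΩ : IsOpen Ω)
    (hΩU : ∀ p ∈ Ω, p.1 ∈ U) (hK : IsCompact K) (hKΩ : K ⊆ Ω) (hKT : ∀ p ∈ K, p.2 ∈ Icc 0 T)
    (hc : ContinuousOn (fun p : EuclideanSpace ℝ (Fin n) × ℝ => Φ p.1 p.2) Ω)
    (hstrict : ∀ x t, (x, t) ∈ Ω → 0 < t → t ≤ T → ∃ φt, HasDerivAt (fun s => Φ x s) φt t ∧
      ContDiffAt ℝ 2 (fun y => Φ y t) x ∧ mop (fun y => Φ y t) x < φt)
    (hinit : ∀ x, (x, (0:ℝ)) ∈ Ω → u x 0 ≤ Φ x 0)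
    (hout : ∀ x t, (x, t) ∈ Ω → 0 ≤ t → t ≤ T → (x, t) ∉ K → u x t ≤ Φ x t) :
    ∀ x t, (x, t) ∈ Ω → 0 ≤ t → t ≤ T → u x t ≤ Φ x t := by
  by_contra hcon
  push Not at hcon
  obtain ⟨x₁, t₁, h1Ω, h10, h1T, h1⟩ := hcon
  have h1K : (x₁, t₁) ∈ K := by
    by_contra hn
    exact absurd (hout x₁ t₁ h1Ω h10 h1T hn) (not_le.mpr h1)
  have hcontK : ContinuousOn (fun p : EuclideanSpace ℝ (Fin n) × ℝ => u p.1 p.2 - Φ p.1 p.2) K := by
    apply ContinuousOn.sub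
    · exact hu.cont.mono (fun p hp => ⟨hΩU p (hKΩ hp), (hKT p hp).1⟩)
    · exact hc.mono hKΩ
  obtain ⟨p, hpK, hpmax⟩ := hK.exists_isMaxOn ⟨_, h1K⟩ hcontK
  obtain ⟨x₀, t₀⟩ := p
  have hmax : ∀ x t, (x, t) ∈ K → u x t - Φ x t ≤ u x₀ t₀ - Φ x₀ t₀ := fun x t h => hpmax h
  have hpos : 0 < u x₀ t₀ - Φ x₀ t₀ := by
    have := hmax x₁ t₁ h1K
    linarith
  have hΩ0 := hKΩ hpK
  have ht0 : 0 ≤ t₀ := (hKT _ hpK).1
  have htT : t₀ ≤ T := (hKT _ hpK).2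
  have ht0' : 0 < t₀ := by
    rcases eq_or_lt_of_le ht0 with h | h
    · exfalso
      subst h
      have := hinit x₀ hΩ0
      linarith
    · exact h
  have hmaxΩ : ∀ x t, (x, t) ∈ Ω → 0 ≤ t → t ≤ T → u x t - Φ x t ≤ u x₀ t₀ - Φ x₀ t₀ := by
    intro x t h h0 hT
    by_cases hk : (x, t) ∈ K
    · exact hmax x t hk
    · have := hout x t h h0 hT hk
      linarith
  obtain ⟨φt, hφt, hΦ2, hlt⟩ := hstrict x₀ t₀ hΩ0 ht0' htT
  have hloc : IsLocalMax (fun x => u x t₀ - Φ x t₀) x₀ := by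
    have h2 : ∀ᶠ x in 𝓝 x₀, (x, t₀) ∈ Ω := by
      have h3 : Tendsto (fun x : EuclideanSpace ℝ (Fin n) => (x, t₀)) (𝓝 x₀) (𝓝 (x₀, t₀)) :=
        (Continuous.prodMk_left t₀).tendsto x₀
      exact h3.eventually (hΩ.mem_nhds hΩ0)
    exact h2.mono (fun x hx => hmaxΩ x t₀ hx ht0 htT)
  have hback : ∀ᶠ s in 𝓝[<] t₀, u x₀ s - Φ x₀ s ≤ u x₀ t₀ - Φ x₀ t₀ := by
    have h2 : ∀ᶠ s in 𝓝[<] t₀, (x₀, s) ∈ Ω := by
      have h3 : Tendsto (fun s : ℝ => (x₀, s)) (𝓝 t₀) (𝓝 (x₀, t₀)) :=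
        (Continuous.prodMk_right x₀).tendsto t₀
      exact (h3.eventually (hΩ.mem_nhds hΩ0)).filter_mono nhdsWithin_le_nhds
    have h4 : ∀ᶠ s in 𝓝[<] t₀, 0 ≤ s :=
      ((lt_mem_nhds ht0').filter_mono nhdsWithin_le_nhds).mono (fun s hs => hs.le)
    filter_upwards [h2, h4, self_mem_nhdsWithin] with s hs hs0 hst
    exact hmaxΩ x₀ s hs hs0 (le_trans (le_of_lt hst) htT)
  have hxU := hΩU _ hΩ0
  have h5 := touch (hu.c2 x₀ hxU t₀ ht0') (hu.eqn x₀ hxU t₀ ht0') rfl hΦ2 hφt hloc hback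
  linarith

end Pool.Agent.TH618
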