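import Pool.Agent.TH618.Pieces

/-!
# The crude bounds `v - M ≤ u ≤ v + M`
-/

set_option autoImplicit false

namespace Pool.Agent.TH618

open Set Filter Topology
open scoped ContDiff

variable {n : ℕ} [NeZero n]

theorem norm_sq_eq_SS (x : EuclideanSpace ℝ (Fin n)) : ‖x‖ ^ 2 = x 0 ^ 2 + SS x := by
  rw [EuclideanSpace.norm_sq_eq]
  unfold SS
  have e1 : x 0 ^ 2 = ∑ i : Fin n, if i = 0 then x 0 ^ 2 else 0 := by simp
  rw [e1, ← Finset.sum_add_distrib]
  apply Finset.sum_congr rfl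
  intro i _
  by_cases hi : i = 0
  · subst hi; simp
  · simp [hi]

theorem SS_nonneg (x : EuclideanSpace ℝ (Fin n)) : 0 ≤ SS x := by
  unfold SS
  apply Finset.sum_nonneg
  intro i _
  split_ifs <;> positivity

theorem continuous_SS : Continuous (SS : EuclideanSpace ℝ (Fin n) → ℝ) := contDiff_SS.continuous

theorem isCompact_box (b R : ℝ) :
    IsCompact {x : EuclideanSpace ℝ (Fin n) | |x 0| ≤ b ∧ SS x ≤ R} := by
  apply Metric.isCompact_of_isClosed_isBounded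
  · have h1 : IsClosed {x : EuclideanSpace ℝ (Fin n) | |x 0| ≤ b} :=
      isClosed_le (by fun_prop) continuous_const
    have h2 : IsClosed {x : EuclideanSpace ℝ (Fin n) | SS x ≤ R} :=
      isClosed_le continuous_SS continuous_const
    exact h1.inter h2
  · rw [isBounded_iff_forall_norm_le]
    refine ⟨|b| + |R| + 1, fun x hx => ?_⟩
    have h1 := norm_sq_eq_SS x
    have h2 : x 0 ^ 2 ≤ |b| ^ 2 := by
      rw [sq_abs, ← sq_abs (x 0)]
      have h3 : |x 0| ≤ b := hx.1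
      have : 0 ≤ |x 0| := abs_nonneg _
      nlinarith
    have h3 : SS x ≤ |R| := hx.2.trans (le_abs_self R)
    have h4 : ‖x‖ ^ 2 ≤ (|b| + |R| + 1) ^ 2 := by
      have := abs_nonneg b
      have := abs_nonneg R
      nlinarith
    exact le_of_sq_le_sq h4 (by positivity)

omit [NeZero n] in
theorem continuous_coord (i : Fin n) : Continuous (fun x : EuclideanSpace ℝ (Fin n) => x i) :=
  (contDiff_coord i).continuous

/-- `log cos (l s) ≤ l log cos s` for `l ≥ 1` -/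
theorem log_cos_scale {l s : ℝ} (hl : 1 ≤ l) (h1 : -(Real.pi / 2) < l * s)
    (h2 : l * s < Real.pi / 2) :
    Real.log (Real.cos (l * s)) ≤ l * Real.log (Real.cos s) := by
  have hl0 : 0 < l := by linarith
  have hpi := Real.pi_pos
  have hc1 : 0 < Real.cos (l * s) := Real.cos_pos_of_mem_Ioo ⟨h1, h2⟩
  have hw : (0:ℝ) ≤ 1 / l := by positivity
  have hw1 : 1 / l ≤ 1 := by rw [div_le_one hl0]; exact hl
  have hconc := strictConcaveOn_cos_Icc.concaveOn.2 (x := l * s) (y := 0)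
    ⟨h1.le, h2.le⟩ ⟨by linarith, by linarith⟩ hw (sub_nonneg.mpr hw1) (by ring)
  simp only [smul_eq_mul, mul_zero, add_zero, Real.cos_zero, mul_one] at hconc
  have e1 : 1 / l * (l * s) = s := by field_simp
  rw [e1] at hconc
  have hlog := strictConcaveOn_log_Ioi.concaveOn.2 (x := Real.cos (l * s)) (y := 1)
    hc1 (by norm_num : (0:ℝ) < 1) hw (sub_nonneg.mpr hw1) (by ring)
  simp only [smul_eq_mul, Real.log_one, mul_zero, add_zero, mul_one] at hlog
  have hpos : 0 < 1 / l * Real.cos (l * s) + (1 - 1 / l) := by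
    have : 0 < 1 / l * Real.cos (l * s) := by positivity
    linarith
  have h3 := Real.log_le_log hpos hconc
  have h4 : 1 / l * Real.log (Real.cos (l * s)) ≤ Real.log (Real.cos s) := hlog.trans h3
  have h5 := mul_le_mul_of_nonneg_left h4 hl0.le
  have e2 : l * (1 / l * Real.log (Real.cos (l * s))) = Real.log (Real.cos (l * s)) := by
    field_simp
  rw [e2] at h5
  exact h5

/-! ### The upper bound -/

/-- the level function of the upper barrier -/
noncomputable def Tup (l ν β R : ℝ) (x : EuclideanSpace ℝ (Fin n)) (t : ℝ) : ℝ :=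
  Real.exp (-(ν * t)) * Real.cos (l * x 0) - β * (R ^ 2 + SS x)

theorem continuous_Tup (l ν β R : ℝ) :
    Continuous (fun p : EuclideanSpace ℝ (Fin n) × ℝ => Tup l ν β R p.1 p.2) := by
  unfold Tup
  have h1 : Continuous (fun p : EuclideanSpace ℝ (Fin n) × ℝ => SS p.1) :=
    continuous_SS.comp continuous_fst
  have h2 : Continuous (fun p : EuclideanSpace ℝ (Fin n) × ℝ => p.1 0) :=
    (continuous_coord 0).comp continuous_fst
  fun_prop

theorem upper_A1 {j : Fin n} (hj : j ≠ 0) {u : EuclideanSpace ℝ (Fin n) → ℝ → ℝ}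
    (hu : Sol (slab n) u) {M : ℝ} (hM : ∀ x ∈ slab n, u x 0 ≤ grim n x + M)
    {l ν β R η T : ℝ} (hl : 1 < l) (hβ : 0 < β) (hR : 0 < R) (hη : 0 < η)
    (hν : l ^ 2 ≤ ν) (hν1 : l ≤ (ν - l ^ 2) * R) (hν2 : 4 * ((n:ℝ) - 1) ≤ (ν - l ^ 2) * R ^ 2)
    (x : EuclideanSpace ℝ (Fin n)) (t : ℝ) (hx1 : -(Real.pi / 2) < l * x 0)
    (hx2 : l * x 0 < Real.pi / 2) (hT : 0 < Tup l ν β R x t) (ht0 : 0 ≤ t) (htT : t ≤ T) :
    u x t ≤ M + η * t - (1 / l) * Real.log (Tup l ν β R x t) := by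
  have hpi := Real.pi_pos
  have hl0 : 0 < l := by linarith
  have hn1 : (0:ℝ) ≤ (n:ℝ) - 1 := by
    have : 1 ≤ n := Nat.one_le_iff_ne_zero.mpr (NeZero.ne n)
    have : (1:ℝ) ≤ n := by exact_mod_cast this
    linarith
  have hν0 : 0 ≤ ν := le_trans (sq_nonneg l) hν
  -- the space-time domain
  set Ω : Set (EuclideanSpace ℝ (Fin n) × ℝ) :=
    {p | (-(Real.pi / 2) < l * p.1 0 ∧ l * p.1 0 < Real.pi / 2) ∧ 0 < Tup l ν β R p.1 p.2} with hΩdef
  have hc0 : Continuous (fun p : EuclideanSpace ℝ (Fin n) × ℝ => l * p.1 0) :=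
    continuous_const.mul ((continuous_coord 0).comp continuous_fst)
  have hΩ : IsOpen Ω :=
    ((isOpen_lt continuous_const hc0).inter (isOpen_lt hc0 continuous_const)).inter
      (isOpen_lt continuous_const (continuous_Tup l ν β R))
  have hslab : ∀ y : EuclideanSpace ℝ (Fin n), |l * y 0| ≤ Real.pi / 2 → y ∈ slab n := by
    intro y hy
    rw [abs_le] at hy
    constructor
    · by_contra hcon
      push Not at hcon
      nlinarith [hy.1]
    · by_contra hcon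
      push Not at hcon
      nlinarith [hy.2]
  have hΩU : ∀ p ∈ Ω, p.1 ∈ slab n := by
    intro p hp
    exact hslab p.1 (abs_le.mpr ⟨hp.1.1.le, hp.1.2.le⟩)
  -- compact set containing the domain
  set C : Set (EuclideanSpace ℝ (Fin n) × ℝ) :=
    {y : EuclideanSpace ℝ (Fin n) | |y 0| ≤ Real.pi / 2 / l ∧ SS y ≤ 1 / β} ×ˢ Icc 0 T with hCdef
  have hC : IsCompact C := (isCompact_box _ _).prod isCompact_Icc
  have hCs : ∀ p ∈ C, |l * p.1 0| ≤ Real.pi / 2 := by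
    intro p hp
    have h1 : |p.1 0| ≤ Real.pi / 2 / l := hp.1.1
    rw [abs_mul, abs_of_pos hl0]
    rwa [le_div_iff₀ hl0, mul_comm] at h1
  have hcontC : ContinuousOn (fun p : EuclideanSpace ℝ (Fin n) × ℝ => u p.1 p.2) C :=
    hu.cont.mono (fun p hp => ⟨hslab p.1 (hCs p hp), hp.2.1⟩)
  obtain ⟨B, hB⟩ := hC.bddAbove_image hcontC
  have hB' : ∀ p ∈ C, u p.1 p.2 ≤ B := fun p hp => hB ⟨p, hp, rfl⟩
  have hΩC : ∀ p ∈ Ω, p.2 ∈ Icc 0 T → p ∈ C := by
    intro p hp hpt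
    refine ⟨⟨?_, ?_⟩, hpt⟩
    · show |p.1 0| ≤ Real.pi / 2 / l
      have h0 : |l * p.1 0| ≤ Real.pi / 2 := abs_le.mpr ⟨hp.1.1.le, hp.1.2.le⟩
      rw [abs_mul, abs_of_pos hl0] at h0
      rw [le_div_iff₀ hl0, mul_comm]
      exact h0
    · show SS p.1 ≤ 1 / β
      have h1 : 0 < Tup l ν β R p.1 p.2 := hp.2
      unfold Tup at h1
      have h2 : Real.exp (-(ν * p.2)) ≤ 1 := by
        rw [Real.exp_le_one_iff]
        have := mul_nonneg hν0 hpt.1
        linarith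
      have h3 := Real.cos_le_one (l * p.1 0)
      have h4 : 0 < Real.cos (l * p.1 0) := Real.cos_pos_of_mem_Ioo hp.1
      have h5 : Real.exp (-(ν * p.2)) * Real.cos (l * p.1 0) ≤ 1 := by
        have := Real.exp_pos (-(ν * p.2))
        nlinarith
      rw [le_div_iff₀ hβ]
      nlinarith [sq_nonneg R, mul_pos hβ (pow_pos hR 2)]
  set κ₀ : ℝ := Real.exp (-(l * (B - M))) with hκ
  have hκ0 : 0 < κ₀ := Real.exp_pos _
  set K : Set (EuclideanSpace ℝ (Fin n) × ℝ) := C ∩ {p | κ₀ ≤ Tup l ν β R p.1 p.2} with hKdef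
  have hK : IsCompact K := hC.inter_right (isClosed_le continuous_const (continuous_Tup l ν β R))
  have hKΩ : K ⊆ Ω := by
    intro p hp
    have h1 : 0 < Tup l ν β R p.1 p.2 := lt_of_lt_of_le hκ0 hp.2
    have h2 := abs_le.mp (hCs p hp.1)
    have h3 : 0 < Real.cos (l * p.1 0) := by
      by_contra hcon
      push Not at hcon
      unfold Tup at h1
      have h4 := Real.exp_pos (-(ν * p.2))
      have h5 : 0 ≤ β * (R ^ 2 + SS p.1) := by
        have := SS_nonneg p.1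
        positivity
      nlinarith
    refine ⟨⟨lt_of_le_of_ne h2.1 ?_, lt_of_le_of_ne h2.2 ?_⟩, h1⟩
    · intro h; rw [← h, Real.cos_neg, Real.cos_pi_div_two] at h3; exact lt_irrefl _ h3
    · intro h; rw [h, Real.cos_pi_div_two] at h3; exact lt_irrefl _ h3
  -- the barrier
  set Φ : EuclideanSpace ℝ (Fin n) → ℝ → ℝ := fun x t =>
    M + η * t - (1 / l) * Real.log (Tup l ν β R x t) with hΦ
  have hΦbar : ∀ (t : ℝ), (fun y => Φ y t) = Bar j (fun _ => M + η * t)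
      (fun s => Real.exp (-(ν * t)) * Real.cos (l * s)) (fun _ => 0)
      (fun s => (1 / l) * (0 - Real.log s)) (-β) (-(β * R ^ 2)) := by
    intro t
    funext y
    simp only [hΦ, Bar, Th, Tup]
    have e : Real.exp (-(ν * t)) * Real.cos (l * y 0) - β * (R ^ 2 + SS y) =
        Real.exp (-(ν * t)) * Real.cos (l * y 0) + 0 + -β * SS y + -(β * R ^ 2) := by ring
    rw [e]; ring
  have hstrict : ∀ x t, (x, t) ∈ Ω → 0 < t → t ≤ T → ∃ φt, HasDerivAt (fun s => Φ x s) φt t ∧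
      ContDiffAt ℝ 2 (fun y => Φ y t) x ∧ mop (fun y => Φ y t) x < φt := by
    intro x t hxt ht _
    have hΘ : 0 < Tup l ν β R x t := hxt.2
    have hTh : Th j (fun s => Real.exp (-(ν * t)) * Real.cos (l * s)) (fun _ => 0) (-β)
        (-(β * R ^ 2)) x = Tup l ν β R x t := by
      simp only [Th, Tup]; ring
    have hF : TwoDer (fun s => (1 / l) * (0 - Real.log s)) (fun s => -((1 / l) / s))
        ((1 / l) / (Tup l ν β R x t) ^ 2) (Th j (fun s => Real.exp (-(ν * t)) * Real.cos (l * s))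
        (fun _ => 0) (-β) (-(β * R ^ 2)) x) := by
      rw [hTh]; exact twoDer_neglog hΘ
    have hG := twoDer_cos (Real.exp (-(ν * t))) l (x 0)
    have hV := twoDer_const (M + η * t) (x 0)
    have hg := twoDer_const (0:ℝ) (x j)
    refine ⟨η + (-(1 / (l * Tup l ν β R x t))) * (-(ν * (Real.exp (-(ν * t)) *
      Real.cos (l * x 0)))), ?_, ?_, ?_⟩
    · have h1 : HasDerivAt (fun s : ℝ => Real.exp (-(ν * s))) (Real.exp (-(ν * t)) * (-ν)) t := by
        have : HasDerivAt (fun s : ℝ => -(ν * s)) (-ν) t := by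
          simpa using ((hasDerivAt_id t).const_mul ν).fun_neg
        exact this.exp
      have h2 : HasDerivAt (fun s : ℝ => Tup l ν β R x s)
          (Real.exp (-(ν * t)) * (-ν) * Real.cos (l * x 0)) t := by
        unfold Tup
        exact (h1.mul_const _).sub_const _
      have h3 := (h2.log hΘ.ne').const_mul (1 / l)
      have h4 : HasDerivAt (fun s : ℝ => M + η * s) η t := by
        simpa using ((hasDerivAt_id t).const_mul η).const_add M
      refine (h4.fun_sub h3).congr_deriv ?_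
      field_simp
      ring
    · rw [hΦbar]
      exact contDiffAt_Bar hV.smooth hG.smooth hg.smooth hF.smooth
    · rw [hΦbar]
      have hf₁ : -(1 / (l * Tup l ν β R x t)) = (fun s : ℝ => -((1 / l) / s))
          (Th j (fun s => Real.exp (-(ν * t)) * Real.cos (l * s)) (fun _ => 0) (-β)
            (-(β * R ^ 2)) x) := by
        rw [hTh]; field_simp
      have hP : 4 * β ^ 2 * (Real.sqrt (SS x)) ^ 2 = PP j 0 (-β) x := by
        rw [Real.sq_sqrt (SS_nonneg x)]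
        unfold PP SS pp
        rw [Finset.mul_sum]
        apply Finset.sum_congr rfl
        intro i _
        split_ifs <;> ring
      have hm := mop_bar hj hV hG hg hF hf₁ rfl hP
      rw [hm]
      have hs := strict_II (l := l) (η := η) (Θ := Tup l ν β R x t) (b := β * (R ^ 2 + SS x))
        (Ec := Real.exp (-(ν * t)) * Real.cos (l * x 0))
        (g := -(l * Real.exp (-(ν * t)) * Real.sin (l * x 0)))
        (s := -(l ^ 2 * Real.exp (-(ν * t)) * Real.cos (l * x 0))) (ν := ν)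
        (Y := Real.sqrt (SS x)) (β := β) (m := (n:ℝ) - 1) (R := R) hη hl0 hΘ hβ hR hn1
        (Real.sqrt_nonneg _) (by rw [Real.sq_sqrt (SS_nonneg x)]) rfl hν1 hν2 hν (by ring)
      refine lt_of_eq_of_lt ?_ hs
      have hΘ' := hΘ.ne'
      field_simp
      ring
  have hcΦ : ContinuousOn (fun p : EuclideanSpace ℝ (Fin n) × ℝ => Φ p.1 p.2) Ω := by
    have h1 : ContinuousOn (fun p : EuclideanSpace ℝ (Fin n) × ℝ =>
        Real.log (Tup l ν β R p.1 p.2)) Ω :=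
      (continuous_Tup l ν β R).continuousOn.log (fun p hp => ne_of_gt hp.2)
    have h2 : Continuous (fun p : EuclideanSpace ℝ (Fin n) × ℝ => M + η * p.2) := by fun_prop
    exact h2.continuousOn.sub (continuousOn_const.mul h1)
  have hinit : ∀ x, (x, (0:ℝ)) ∈ Ω → u x 0 ≤ Φ x 0 := by
    intro x hx
    have h1 := hM x (hΩU _ hx)
    have hcos : 0 < Real.cos (l * x 0) := Real.cos_pos_of_mem_Ioo hx.1
    have hT0 : 0 < Tup l ν β R x 0 := hx.2
    have h2 : Tup l ν β R x 0 ≤ Real.cos (l * x 0) := by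
      unfold Tup
      have : 0 ≤ β * (R ^ 2 + SS x) := by
        have := SS_nonneg x
        positivity
      simp
      linarith
    have h3 := Real.log_le_log hT0 h2
    have h4 := log_cos_scale hl.le hx.1.1 hx.1.2
    have h5 : (1 / l) * Real.log (Tup l ν β R x 0) ≤ Real.log (Real.cos (x 0)) := by
      have h6 := mul_le_mul_of_nonneg_left (h3.trans h4) (by positivity : (0:ℝ) ≤ 1 / l)
      have e : 1 / l * (l * Real.log (Real.cos (x 0))) = Real.log (Real.cos (x 0)) := by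
        field_simp
      rwa [e] at h6
    simp only [hΦ]
    unfold grim at h1
    linarith
  have hout : ∀ x t, (x, t) ∈ Ω → 0 ≤ t → t ≤ T → (x, t) ∉ K → u x t ≤ Φ x t := by
    intro x t hxt h0 hT' hnK
    have hxC := hΩC _ hxt ⟨h0, hT'⟩
    have h1 : Tup l ν β R x t < κ₀ := by
      by_contra hcon
      push Not at hcon
      exact hnK ⟨hxC, hcon⟩
    have h2 := hB' _ hxC
    have hT0 : 0 < Tup l ν β R x t := hxt.2
    have h3 := Real.log_le_log hT0 h1.le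
    rw [hκ, Real.log_exp] at h3
    have h4 := mul_le_mul_of_nonneg_left h3 (by positivity : (0:ℝ) ≤ 1 / l)
    have e : 1 / l * -(l * (B - M)) = -(B - M) := by field_simp
    rw [e] at h4
    have h5 : 0 ≤ η * t := mul_nonneg hη.le h0
    simp only [hΦ]
    simp only at h2
    linarith
  exact comparison hu hΩ hΩU hK hKΩ (fun p hp => hp.1.2) hcΦ hstrict hinit hout x t
    ⟨⟨hx1, hx2⟩, hT⟩ ht0 htT

theorem upper_A2 {j : Fin n} (hj : j ≠ 0) {u : EuclideanSpace ℝ (Fin n) → ℝ → ℝ}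
    (hu : Sol (slab n) u) {M : ℝ} (hM : ∀ x ∈ slab n, u x 0 ≤ grim n x + M)
    {ε : ℝ} (hε : 0 < ε)
    (x : EuclideanSpace ℝ (Fin n)) (t : ℝ) (hx1 : -(Real.pi / 2) < (1 + ε) * x 0)
    (hx2 : (1 + ε) * x 0 < Real.pi / 2) (ht0 : 0 ≤ t) :
    u x t ≤ M + ε * t - (1 / (1 + ε)) *
      Real.log (Real.exp (-(((1 + ε) ^ 2 + ε) * t)) * Real.cos ((1 + ε) * x 0)) := by
  have hcos : 0 < Real.cos ((1 + ε) * x 0) := Real.cos_pos_of_mem_Ioo ⟨hx1, hx2⟩
  set ν := (1 + ε) ^ 2 + ε with hν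
  have hn1 : (0:ℝ) ≤ (n:ℝ) - 1 := by
    have : 1 ≤ n := Nat.one_le_iff_ne_zero.mpr (NeZero.ne n)
    have : (1:ℝ) ≤ n := by exact_mod_cast this
    linarith
  set R : ℝ := (1 + ε) / ε + 4 * ((n:ℝ) - 1) / ε + 1 with hR
  have hR0 : 1 ≤ R := by
    have h1 : 0 ≤ (1 + ε) / ε := by positivity
    have h2 : 0 ≤ 4 * ((n:ℝ) - 1) / ε := by positivity
    linarith
  have hνl : ν - (1 + ε) ^ 2 = ε := by rw [hν]; ring
  have hR1 : (1 + ε) ≤ ε * R := by
    have e : ε * R = (1 + ε) + 4 * ((n:ℝ) - 1) + ε := by rw [hR]; field_simp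
    rw [e]; linarith
  have hR2 : 4 * ((n:ℝ) - 1) ≤ ε * R ^ 2 := by
    have e : ε * R = (1 + ε) + 4 * ((n:ℝ) - 1) + ε := by rw [hR]; field_simp
    have h2 : ε * R ≤ ε * R ^ 2 := by
      have : R ≤ R ^ 2 := by nlinarith
      exact mul_le_mul_of_nonneg_left this hε.le
    linarith
  -- let `β → 0`
  have hpos : 0 < Tup (1 + ε) ν 0 R x t := by
    unfold Tup
    have := Real.exp_pos (-(ν * t))
    simp only [zero_mul, sub_zero]
    positivity
  have hcont : Continuous (fun β : ℝ => Tup (1 + ε) ν β R x t) := by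
    unfold Tup
    fun_prop
  have hlim : Tendsto (fun β : ℝ => Tup (1 + ε) ν β R x t) (𝓝[>] 0)
      (𝓝 (Tup (1 + ε) ν 0 R x t)) :=
    (hcont.tendsto 0).mono_left nhdsWithin_le_nhds
  have hev : ∀ᶠ β in 𝓝[>] (0:ℝ), 0 < Tup (1 + ε) ν β R x t := hlim.eventually (lt_mem_nhds hpos)
  have hlim2 : Tendsto (fun β : ℝ => M + ε * t - (1 / (1 + ε)) *
      Real.log (Tup (1 + ε) ν β R x t)) (𝓝[>] 0)
      (𝓝 (M + ε * t - (1 / (1 + ε)) * Real.log (Tup (1 + ε) ν 0 R x t))) :=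
    tendsto_const_nhds.sub (tendsto_const_nhds.mul (hlim.log hpos.ne'))
  have hge : ∀ᶠ β in 𝓝[>] (0:ℝ), u x t ≤ M + ε * t - (1 / (1 + ε)) *
      Real.log (Tup (1 + ε) ν β R x t) := by
    filter_upwards [hev, self_mem_nhdsWithin] with β hβ hβ0
    exact upper_A1 hj hu hM (l := 1 + ε) (ν := ν) (T := t) (by linarith) hβ0 (by linarith) hε
      (by linarith) (by rw [hνl]; exact hR1) (by rw [hνl]; exact hR2) x t hx1 hx2 hβ ht0 le_rfl
  have h := ge_of_tendsto hlim2 hge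
  have e : Tup (1 + ε) ν 0 R x t = Real.exp (-(ν * t)) * Real.cos ((1 + ε) * x 0) := by
    unfold Tup; simp
  rw [e] at h
  exact h

/-- **Upper bound**: every graphical solution lies below `v + M`. -/
theorem upper_crude {j : Fin n} (hj : j ≠ 0) {u : EuclideanSpace ℝ (Fin n) → ℝ → ℝ}
    (hu : Sol (slab n) u) {M : ℝ} (hM : ∀ x ∈ slab n, u x 0 ≤ grim n x + M) :
    ∀ x ∈ slab n, ∀ t : ℝ, 0 ≤ t → u x t ≤ grim n x + t + M := by
  intro x hx t ht
  have hcos : 0 < Real.cos (x 0) := Real.cos_pos_of_mem_Ioo hx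
  have hc1 : Continuous (fun ε : ℝ => (1 + ε) * x 0) := by fun_prop
  have hev1 : ∀ᶠ ε in 𝓝[>] (0:ℝ), -(Real.pi / 2) < (1 + ε) * x 0 := by
    have h1 : Tendsto (fun ε : ℝ => (1 + ε) * x 0) (𝓝[>] 0) (𝓝 (x 0)) := by
      have := (hc1.tendsto 0).mono_left (nhdsWithin_le_nhds (s := Ioi (0:ℝ)))
      simpa using this
    exact h1.eventually (lt_mem_nhds hx.1)
  have hev2 : ∀ᶠ ε in 𝓝[>] (0:ℝ), (1 + ε) * x 0 < Real.pi / 2 := by
    have h1 : Tendsto (fun ε : ℝ => (1 + ε) * x 0) (𝓝[>] 0) (𝓝 (x 0)) := by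
      have := (hc1.tendsto 0).mono_left (nhdsWithin_le_nhds (s := Ioi (0:ℝ)))
      simpa using this
    exact h1.eventually (gt_mem_nhds hx.2)
  have hge : ∀ᶠ ε in 𝓝[>] (0:ℝ), u x t ≤ M + ε * t - (1 / (1 + ε)) *
      Real.log (Real.exp (-(((1 + ε) ^ 2 + ε) * t)) * Real.cos ((1 + ε) * x 0)) := by
    filter_upwards [hev1, hev2, self_mem_nhdsWithin] with ε h1 h2 h3
    exact upper_A2 hj hu hM h3 x t h1 h2 ht
  have hcat : ContinuousAt (fun ε : ℝ => M + ε * t - (1 / (1 + ε)) *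
      Real.log (Real.exp (-(((1 + ε) ^ 2 + ε) * t)) * Real.cos ((1 + ε) * x 0))) 0 := by
    have h1 : ContinuousAt (fun ε : ℝ => 1 / (1 + ε)) 0 := by
      apply ContinuousAt.div continuousAt_const (by fun_prop) (by norm_num)
    have h2 : ContinuousAt (fun ε : ℝ => Real.exp (-(((1 + ε) ^ 2 + ε) * t)) *
        Real.cos ((1 + ε) * x 0)) 0 := by fun_prop
    have h3 : Real.exp (-(((1 + (0:ℝ)) ^ 2 + 0) * t)) * Real.cos ((1 + (0:ℝ)) * x 0) ≠ 0 := by
      have := Real.exp_pos (-(((1 + (0:ℝ)) ^ 2 + 0) * t))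
      simp only [add_zero, one_mul]
      exact mul_ne_zero (Real.exp_pos _).ne' hcos.ne'
    have h4 := h2.log h3
    have h5 : ContinuousAt (fun ε : ℝ => M + ε * t) 0 := by fun_prop
    exact h5.sub (h1.mul h4)
  have hlim := (hcat.tendsto).mono_left (nhdsWithin_le_nhds (s := Ioi (0:ℝ)))
  have h := ge_of_tendsto hlim hge
  have e : M + 0 * t - (1 / (1 + (0:ℝ))) *
      Real.log (Real.exp (-(((1 + (0:ℝ)) ^ 2 + 0) * t)) * Real.cos ((1 + (0:ℝ)) * x 0)) =
      grim n x + t + M := by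
    have h1 : (1:ℝ) + 0 = 1 := by norm_num
    rw [h1, one_pow, add_zero, one_mul, one_mul, Real.log_mul (Real.exp_pos _).ne' hcos.ne',
      Real.log_exp]
    unfold grim
    ring
  rw [e] at h
  exact h

/-! ### The lower bound -/

/-- the level function of the lower barrier -/
noncomputable def Dlo (ρ k : ℝ) (x : EuclideanSpace ℝ (Fin n)) (t : ℝ) : ℝ := ρ ^ 2 - k * t - SS x

theorem continuous_Dlo (ρ k : ℝ) :
    Continuous (fun p : EuclideanSpace ℝ (Fin n) × ℝ => Dlo ρ k p.1 p.2) := by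
  unfold Dlo
  have h1 : Continuous (fun p : EuclideanSpace ℝ (Fin n) × ℝ => SS p.1) :=
    continuous_SS.comp continuous_fst
  fun_prop

/-- `u → ∞` at the boundary of the slab, locally uniformly in space and time -/
def BlowsUp (n : ℕ) [NeZero n] (u : EuclideanSpace ℝ (Fin n) → ℝ → ℝ) : Prop :=
  ∀ T R B : ℝ, ∃ ρ : ℝ, 0 < ρ ∧ ∀ x ∈ slab n, ‖x‖ ≤ R → Real.pi / 2 - ρ < |x 0| →
    ∀ t ∈ Icc 0 T, B ≤ u x t

theorem strict_A_lower {l v D r k m : ℝ} (hl : 1 / 2 ≤ l)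
    (hD : 0 < D) (hr : 0 ≤ r) (hk : 2 * m + r / 2 ≤ k) :
    0 ≤ -(-1) * l * v ^ 2 * (-(2 / D)) ^ 2 * (4 * r ^ 2) - (2 / D ^ 2) * (1 + v ^ 2) * (4 * r ^ 2) +
      (-(2 / D)) ^ 3 * (0 * (0:ℝ) ^ 2 + 2 * (-1) * (4 * r ^ 2)) +
      (-(2 / D)) * (-k - 0 - 2 * (-1) * m) * (1 + v ^ 2 + (-(2 / D)) ^ 2 * (4 * r ^ 2)) := by
  have key : -(-1) * l * v ^ 2 * (-(2 / D)) ^ 2 * (4 * r ^ 2) -
      (2 / D ^ 2) * (1 + v ^ 2) * (4 * r ^ 2) +
      (-(2 / D)) ^ 3 * (0 * (0:ℝ) ^ 2 + 2 * (-1) * (4 * r ^ 2)) +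
      (-(2 / D)) * (-k - 0 - 2 * (-1) * m) * (1 + v ^ 2 + (-(2 / D)) ^ 2 * (4 * r ^ 2)) =
      (8 * (2 * l - 1) * v ^ 2 * r ^ 2 * D - 8 * r ^ 2 * D + 64 * r ^ 2 +
        2 * (k - 2 * m) * ((1 + v ^ 2) * D ^ 2 + 16 * r ^ 2)) / D ^ 3 := by
    field_simp
    ring
  rw [key]
  apply div_nonneg _ (by positivity)
  have h1 : 0 ≤ 8 * (2 * l - 1) * v ^ 2 * r ^ 2 * D := by
    have : 0 ≤ 2 * l - 1 := by linarith
    positivity
  have h2 : r * ((1 + v ^ 2) * D ^ 2 + 16 * r ^ 2) ≤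
      2 * (k - 2 * m) * ((1 + v ^ 2) * D ^ 2 + 16 * r ^ 2) := by
    apply mul_le_mul_of_nonneg_right _ (by positivity)
    linarith
  have h3 : 8 * r ^ 2 * D ≤ r * ((1 + v ^ 2) * D ^ 2 + 16 * r ^ 2) := by
    have h4 : 8 * r * D ≤ (1 + v ^ 2) * D ^ 2 + 16 * r ^ 2 := by
      nlinarith [sq_nonneg (D - 4 * r), mul_nonneg (sq_nonneg v) (sq_nonneg D)]
    nlinarith
  nlinarith [sq_nonneg r]

theorem lower_A1 {j : Fin n} (hj : j ≠ 0) {u : EuclideanSpace ℝ (Fin n) → ℝ → ℝ}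
    (hu : Sol (slab n) u) (hbl : BlowsUp n u) {M : ℝ}
    (hM : ∀ x ∈ slab n, grim n x - M ≤ u x 0)
    {l ρ η T : ℝ} (hl : 1 / 2 ≤ l) (hl1 : l < 1) (hρ : 1 ≤ ρ) (hη : 0 < η)
    (x : EuclideanSpace ℝ (Fin n)) (t : ℝ) (hx : x ∈ slab n)
    (hD : 0 < Dlo ρ (2 * ((n:ℝ) - 1) + ρ / 2) x t) (ht0 : 0 ≤ t) (htT : t ≤ T) :
    -u x t ≤ (1 / l) * Real.log (Real.cos (l * x 0)) + (-(l * t) + M + η * t) +
      2 * (Real.log (ρ ^ 2) - Real.log (Dlo ρ (2 * ((n:ℝ) - 1) + ρ / 2) x t)) := by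
  have hpi := Real.pi_pos
  have hl0 : 0 < l := by linarith
  have hρ0 : 0 < ρ := by linarith
  have hn1 : (0:ℝ) ≤ (n:ℝ) - 1 := by
    have : 1 ≤ n := Nat.one_le_iff_ne_zero.mpr (NeZero.ne n)
    have : (1:ℝ) ≤ n := by exact_mod_cast this
    linarith
  set k : ℝ := 2 * ((n:ℝ) - 1) + ρ / 2 with hk
  have hk0 : 0 ≤ k := by rw [hk]; positivity
  have hT0 : 0 ≤ T := ht0.trans htT
  set Ω : Set (EuclideanSpace ℝ (Fin n) × ℝ) :=
    {p | (-(Real.pi / 2) < p.1 0 ∧ p.1 0 < Real.pi / 2) ∧ 0 < Dlo ρ k p.1 p.2} with hΩdef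
  have hc0 : Continuous (fun p : EuclideanSpace ℝ (Fin n) × ℝ => p.1 0) :=
    (continuous_coord 0).comp continuous_fst
  have hΩ : IsOpen Ω :=
    ((isOpen_lt continuous_const hc0).inter (isOpen_lt hc0 continuous_const)).inter
      (isOpen_lt continuous_const (continuous_Dlo ρ k))
  have hΩU : ∀ p ∈ Ω, p.1 ∈ slab n := fun p hp => hp.1
  -- the cosine
  have hcosl : ∀ s : ℝ, |s| ≤ Real.pi / 2 → Real.cos (l * (Real.pi / 2)) ≤ Real.cos (l * s) := by
    intro s hs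
    rw [← Real.cos_abs (l * s), abs_mul, abs_of_pos hl0]
    apply Real.cos_le_cos_of_nonneg_of_le_pi
    · positivity
    · nlinarith
    · exact mul_le_mul_of_nonneg_left hs hl0.le
  have hcosb : 0 < Real.cos (l * (Real.pi / 2)) := by
    apply Real.cos_pos_of_mem_Ioo
    constructor <;> nlinarith
  set B₁ : ℝ := -((1 / l) * Real.log (Real.cos (l * (Real.pi / 2)))) + l * T - M with hB₁
  -- the domain is bounded
  have hSSρ : ∀ p ∈ Ω, 0 ≤ p.2 → SS p.1 ≤ ρ ^ 2 ∧ Dlo ρ k p.1 p.2 ≤ ρ ^ 2 := by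
    intro p hp hp0
    have h1 : 0 < Dlo ρ k p.1 p.2 := hp.2
    unfold Dlo at h1 ⊢
    have h2 := mul_nonneg hk0 hp0
    have h3 := SS_nonneg p.1
    constructor <;> linarith
  obtain ⟨ρ₁, hρ₁, hbl1⟩ := hbl T (ρ + 2) B₁
  have hnorm : ∀ y : EuclideanSpace ℝ (Fin n), |y 0| ≤ Real.pi / 2 → SS y ≤ ρ ^ 2 →
      ‖y‖ ≤ ρ + 2 := by
    intro y h1 h2
    have h3 := norm_sq_eq_SS y
    have h4 : y 0 ^ 2 ≤ 4 := by
      rw [← sq_abs]
      have := Real.pi_le_four
      have h5 : |y 0| ≤ 2 := by linarith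
      have := abs_nonneg (y 0)
      nlinarith
    have h6 : ‖y‖ ^ 2 ≤ (ρ + 2) ^ 2 := by nlinarith
    exact le_of_sq_le_sq h6 (by positivity)
  -- compact part
  set C : Set (EuclideanSpace ℝ (Fin n) × ℝ) :=
    {y : EuclideanSpace ℝ (Fin n) | |y 0| ≤ Real.pi / 2 - min ρ₁ 1 ∧ SS y ≤ ρ ^ 2} ×ˢ Icc 0 T
    with hCdef
  have hmin : 0 < min ρ₁ 1 := lt_min hρ₁ one_pos
  have hC : IsCompact C := (isCompact_box _ _).prod isCompact_Icc
  have hCs : ∀ p ∈ C, p.1 ∈ slab n := by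
    intro p hp
    have h1 : |p.1 0| ≤ Real.pi / 2 - min ρ₁ 1 := hp.1.1
    have h2 := abs_le.mp h1
    exact ⟨by linarith [h2.1], by linarith [h2.2]⟩
  have hu' := hu.neg
  have hcontC : ContinuousOn (fun p : EuclideanSpace ℝ (Fin n) × ℝ => -u p.1 p.2) C :=
    hu'.cont.mono (fun p hp => ⟨hCs p hp, hp.2.1⟩)
  obtain ⟨B, hB⟩ := hC.bddAbove_image hcontC
  have hB' : ∀ p ∈ C, -u p.1 p.2 ≤ B := fun p hp => hB ⟨p, hp, rfl⟩
  set κ₀ : ℝ := ρ ^ 2 * Real.exp (-((|B| + |B₁|) / 2)) with hκ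
  have hκ0 : 0 < κ₀ := by positivity
  set K : Set (EuclideanSpace ℝ (Fin n) × ℝ) := C ∩ {p | κ₀ ≤ Dlo ρ k p.1 p.2} with hKdef
  have hK : IsCompact K := hC.inter_right (isClosed_le continuous_const (continuous_Dlo ρ k))
  have hKΩ : K ⊆ Ω := fun p hp => ⟨hCs p hp.1, lt_of_lt_of_le hκ0 hp.2⟩
  -- the barrier
  set Φ : EuclideanSpace ℝ (Fin n) → ℝ → ℝ := fun x t =>
    (1 / l) * Real.log (Real.cos (l * x 0)) + (-(l * t) + M + η * t) +
      2 * (Real.log (ρ ^ 2) - Real.log (Dlo ρ k x t)) with hΦ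
  have hΦbar : ∀ (t : ℝ), (fun y => Φ y t) = Bar j
      (fun s => -((-1) / l) * Real.log (Real.cos (l * s)) + (-(l * t) + M + η * t))
      (fun _ => 0) (fun _ => 0) (fun s => 2 * (Real.log (ρ ^ 2) - Real.log s)) (-1)
      (ρ ^ 2 - k * t) := by
    intro t
    funext y
    simp only [hΦ, Bar, Th, Dlo]
    have e : (0:ℝ) + 0 + -1 * SS y + (ρ ^ 2 - k * t) = ρ ^ 2 - k * t - SS y := by ring
    rw [e]; ring
  have hcosΩ : ∀ p ∈ Ω, 0 < Real.cos (l * p.1 0) := by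
    intro p hp
    apply Real.cos_pos_of_mem_Ioo
    have h1 := hp.1.1
    have h2 := hp.1.2
    constructor <;> nlinarith
  have hstrict : ∀ x t, (x, t) ∈ Ω → 0 < t → t ≤ T → ∃ φt, HasDerivAt (fun s => Φ x s) φt t ∧
      ContDiffAt ℝ 2 (fun y => Φ y t) x ∧ mop (fun y => Φ y t) x < φt := by
    intro x t hxt ht _
    have hDp : 0 < Dlo ρ k x t := hxt.2
    have hTh : Th j (fun _ => (0:ℝ)) (fun _ => 0) (-1) (ρ ^ 2 - k * t) x = Dlo ρ k x t := by
      simp only [Th, Dlo]; ring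
    have hF : TwoDer (fun s => 2 * (Real.log (ρ ^ 2) - Real.log s)) (fun s => -(2 / s))
        (2 / (Dlo ρ k x t) ^ 2) (Th j (fun _ => (0:ℝ)) (fun _ => 0) (-1) (ρ ^ 2 - k * t) x) := by
      rw [hTh]; exact twoDer_neglog hDp
    have hG := twoDer_const (0:ℝ) (x 0)
    have hV := twoDer_V (κ := -1) (-(l * t) + M + η * t) hl0.ne' (hcosΩ _ hxt)
    have hg := twoDer_const (0:ℝ) (x j)
    refine ⟨(-1) * l + η + (-(2 / Dlo ρ k x t)) * (-k), ?_, ?_, ?_⟩
    · have h2 : HasDerivAt (fun s : ℝ => Dlo ρ k x s) (-k) t := by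
        unfold Dlo
        have : HasDerivAt (fun s : ℝ => ρ ^ 2 - k * s) (-k) t := by
          simpa using ((hasDerivAt_id t).const_mul k).const_sub (ρ ^ 2)
        exact this.sub_const _
      have h3 := ((h2.log hDp.ne').const_sub (Real.log (ρ ^ 2))).const_mul 2
      have h4 : HasDerivAt (fun s : ℝ => -(l * s) + M + η * s) (-l + η) t := by
        have h5 : HasDerivAt (fun s : ℝ => -(l * s)) (-l) t := by
          simpa using ((hasDerivAt_id t).const_mul l).fun_neg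
        have h6 : HasDerivAt (fun s : ℝ => η * s) η t := by
          simpa using (hasDerivAt_id t).const_mul η
        exact (h5.add_const M).fun_add h6
      have h5 := (h4.const_add ((1 / l) * Real.log (Real.cos (l * x 0)))).fun_add h3
      refine h5.congr_deriv ?_
      field_simp
    · rw [hΦbar]
      exact contDiffAt_Bar hV.smooth hG.smooth hg.smooth hF.smooth
    · rw [hΦbar]
      have hf₁ : -(2 / (Dlo ρ k x t)) = (fun s : ℝ => -(2 / s))
          (Th j (fun _ => (0:ℝ)) (fun _ => 0) (-1) (ρ ^ 2 - k * t) x) := by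
        rw [hTh]
      have hP : 4 * (Real.sqrt (SS x)) ^ 2 = PP j 0 (-1) x := by
        rw [Real.sq_sqrt (SS_nonneg x)]
        unfold PP SS pp
        rw [Finset.mul_sum]
        apply Finset.sum_congr rfl
        intro i _
        split_ifs <;> ring
      have hm := mop_bar hj hV hG hg hF hf₁ rfl hP
      rw [hm]
      have hr : Real.sqrt (SS x) ≤ ρ := by
        rw [Real.sqrt_le_left hρ0.le]
        exact (hSSρ _ hxt ht.le).1
      have hX := strict_A_lower (l := l) (v := Real.tan (l * x 0)) (D := Dlo ρ k x t)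
        (r := Real.sqrt (SS x)) (k := k) (m := (n:ℝ) - 1) hl hDp (Real.sqrt_nonneg _)
        (by rw [hk]; linarith)
      have hs := strict_I (κ := -1) (l := l) (v := Real.tan (l * x 0)) (η := η)
        (f₁ := -(2 / Dlo ρ k x t)) (F₂ := 2 / (Dlo ρ k x t) ^ 2) (g₂ := 0) (ht := -k) (δ := -1)
        (P := 4 * (Real.sqrt (SS x)) ^ 2) (pj := 0) (m := (n:ℝ) - 1) hη (by positivity) hX
      refine lt_of_eq_of_lt ?_ hs
      simp only [mul_zero, zero_mul, add_zero, zero_add, ne_eq, OfNat.ofNat_ne_zero,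
        not_false_eq_true, zero_pow]
      ring_nf
  have hcΦ : ContinuousOn (fun p : EuclideanSpace ℝ (Fin n) × ℝ => Φ p.1 p.2) Ω := by
    have h1 : ContinuousOn (fun p : EuclideanSpace ℝ (Fin n) × ℝ =>
        Real.log (Dlo ρ k p.1 p.2)) Ω :=
      (continuous_Dlo ρ k).continuousOn.log (fun p hp => ne_of_gt hp.2)
    have h2 : Continuous (fun p : EuclideanSpace ℝ (Fin n) × ℝ =>
      (-(l * p.2) + M + η * p.2)) := by fun_prop
    have h3 : ContinuousOn (fun p : EuclideanSpace ℝ (Fin n) × ℝ =>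
        Real.log (Real.cos (l * p.1 0))) Ω :=
      (Real.continuous_cos.comp (continuous_const.mul hc0)).continuousOn.log
        (fun p hp => ne_of_gt (hcosΩ p hp))
    exact ((continuousOn_const.mul h3).add h2.continuousOn).add
      (continuousOn_const.mul (continuousOn_const.sub h1))
  have hinit : ∀ x, (x, (0:ℝ)) ∈ Ω → -u x 0 ≤ Φ x 0 := by
    intro x hx
    have h1 := hM x (hΩU _ hx)
    have h2 := (hSSρ _ hx le_rfl).2
    have h3 := Real.log_le_log hx.2 h2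
    have hxs : -(Real.pi / 2) < x 0 ∧ x 0 < Real.pi / 2 := hx.1
    have h4 := log_cos_scale (l := 1 / l) (s := l * x 0) (by rw [le_div_iff₀ hl0]; linarith)
      (by have : 1 / l * (l * x 0) = x 0 := by field_simp
          rw [this]; exact hxs.1)
      (by have : 1 / l * (l * x 0) = x 0 := by field_simp
          rw [this]; exact hxs.2)
    have e : 1 / l * (l * x 0) = x 0 := by field_simp
    rw [e] at h4
    simp only [hΦ]
    unfold grim at h1
    simp only at h3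
    linarith
  have hlow : ∀ x t, (x, t) ∈ Ω → 0 ≤ t → t ≤ T →
      -B₁ + 2 * (Real.log (ρ ^ 2) - Real.log (Dlo ρ k x t)) ≤ Φ x t := by
    intro x t hxt h0 hT'
    have h1 : |x 0| ≤ Real.pi / 2 := abs_le.mpr ⟨hxt.1.1.le, hxt.1.2.le⟩
    have h2 := Real.log_le_log hcosb (hcosl (x 0) h1)
    have h3 := mul_le_mul_of_nonneg_left h2 (by positivity : (0:ℝ) ≤ 1 / l)
    have h4 : l * t ≤ l * T := mul_le_mul_of_nonneg_left hT' hl0.le
    have h5 : 0 ≤ η * t := mul_nonneg hη.le h0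
    simp only [hΦ, hB₁]
    linarith
  have hout : ∀ x t, (x, t) ∈ Ω → 0 ≤ t → t ≤ T → (x, t) ∉ K → -u x t ≤ Φ x t := by
    intro x t hxt h0 hT' hnK
    have hlo := hlow x t hxt h0 hT'
    have hDp : 0 < Dlo ρ k x t := hxt.2
    have hSD := hSSρ _ hxt h0
    have hSS1 : SS x ≤ ρ ^ 2 := hSD.1
    have hlogD : Real.log (Dlo ρ k x t) ≤ Real.log (ρ ^ 2) := Real.log_le_log hDp hSD.2
    by_cases hc : |x 0| ≤ Real.pi / 2 - min ρ₁ 1
    · have hxC : (x, t) ∈ C := ⟨⟨hc, hSS1⟩, h0, hT'⟩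
      have h1 : Dlo ρ k x t < κ₀ := by
        by_contra hcon
        push Not at hcon
        exact hnK ⟨hxC, hcon⟩
      have h2 := hB' _ hxC
      have h3 := Real.log_le_log hDp h1.le
      rw [hκ, Real.log_mul (by positivity) (Real.exp_pos _).ne', Real.log_exp] at h3
      have h4 := le_abs_self B
      have h5 := le_abs_self B₁
      simp only at h2
      linarith
    · push Not at hc
      have h1 : |x 0| ≤ Real.pi / 2 := abs_le.mpr ⟨hxt.1.1.le, hxt.1.2.le⟩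
      have h2 := hbl1 x hxt.1 (hnorm x h1 hSS1) (by
        have := min_le_left ρ₁ 1
        linarith) t ⟨h0, hT'⟩
      linarith
  exact comparison hu' hΩ hΩU hK hKΩ (fun p hp => hp.1.2) hcΦ hstrict hinit hout x t
    ⟨hx, hD⟩ ht0 htT

theorem lower_A2 {j : Fin n} (hj : j ≠ 0) {u : EuclideanSpace ℝ (Fin n) → ℝ → ℝ}
    (hu : Sol (slab n) u) (hbl : BlowsUp n u) {M : ℝ}
    (hM : ∀ x ∈ slab n, grim n x - M ≤ u x 0)
    {l η : ℝ} (hl : 1 / 2 ≤ l) (hl1 : l < 1) (hη : 0 < η)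
    (x : EuclideanSpace ℝ (Fin n)) (t : ℝ) (hx : x ∈ slab n) (ht0 : 0 ≤ t) :
    -u x t ≤ (1 / l) * Real.log (Real.cos (l * x 0)) + (-(l * t) + M + η * t) := by
  set m : ℝ := (n:ℝ) - 1 with hm
  -- `D / ρ² → 1`
  have hq : Tendsto (fun ρ : ℝ => Dlo ρ (2 * m + ρ / 2) x t / ρ ^ 2) atTop (𝓝 1) := by
    have h1 : Tendsto (fun ρ : ℝ => 1 - (2 * m * t + SS x) * (ρ⁻¹) ^ 2 - t / 2 * ρ⁻¹) atTop
        (𝓝 (1 - (2 * m * t + SS x) * 0 ^ 2 - t / 2 * 0)) := by
      have h2 : Tendsto (fun ρ : ℝ => ρ⁻¹) atTop (𝓝 0) := tendsto_inv_atTop_zero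
      exact (tendsto_const_nhds.sub (tendsto_const_nhds.mul (h2.pow 2))).sub
        (tendsto_const_nhds.mul h2)
    have e : (1 - (2 * m * t + SS x) * 0 ^ 2 - t / 2 * 0) = 1 := by ring
    rw [e] at h1
    refine h1.congr' ?_
    filter_upwards [eventually_gt_atTop (0:ℝ)] with ρ hρ
    unfold Dlo
    field_simp
    ring
  have hlog : Tendsto (fun ρ : ℝ => Real.log (Dlo ρ (2 * m + ρ / 2) x t / ρ ^ 2)) atTop (𝓝 0) := by
    have := hq.log one_ne_zero
    simpa using this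
  have hpos : ∀ᶠ ρ in atTop, 0 < Dlo ρ (2 * m + ρ / 2) x t / ρ ^ 2 :=
    hq.eventually (lt_mem_nhds one_pos)
  have hge : ∀ᶠ ρ in atTop, -u x t ≤ (1 / l) * Real.log (Real.cos (l * x 0)) +
      (-(l * t) + M + η * t) + 2 * (-(Real.log (Dlo ρ (2 * m + ρ / 2) x t / ρ ^ 2))) := by
    filter_upwards [hpos, eventually_ge_atTop (1:ℝ)] with ρ h1 h2
    have hρ2 : (0:ℝ) < ρ ^ 2 := by positivity
    have h3 : 0 < Dlo ρ (2 * m + ρ / 2) x t := by
      by_contra hcon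
      push Not at hcon
      have := div_nonpos_of_nonpos_of_nonneg hcon hρ2.le
      linarith
    have h4 := lower_A1 hj hu hbl hM hl hl1 h2 hη x t hx h3 ht0 le_rfl
    rw [Real.log_div h3.ne' hρ2.ne']
    linarith
  have hlim : Tendsto (fun ρ : ℝ => (1 / l) * Real.log (Real.cos (l * x 0)) +
      (-(l * t) + M + η * t) + 2 * (-(Real.log (Dlo ρ (2 * m + ρ / 2) x t / ρ ^ 2)))) atTop
      (𝓝 ((1 / l) * Real.log (Real.cos (l * x 0)) + (-(l * t) + M + η * t) + 2 * (-0))) :=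
    tendsto_const_nhds.add (tendsto_const_nhds.mul hlog.neg)
  have h := ge_of_tendsto hlim hge
  linarith

/-- **Lower bound**: every complete graphical solution lies above `v - M`. -/
theorem lower_crude {j : Fin n} (hj : j ≠ 0) {u : EuclideanSpace ℝ (Fin n) → ℝ → ℝ}
    (hu : Sol (slab n) u) (hbl : BlowsUp n u) {M : ℝ}
    (hM : ∀ x ∈ slab n, grim n x - M ≤ u x 0) :
    ∀ x ∈ slab n, ∀ t : ℝ, 0 ≤ t → grim n x + t - M ≤ u x t := by
  intro x hx t ht
  have hcos : 0 < Real.cos (x 0) := Real.cos_pos_of_mem_Ioo hx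
  have hge : ∀ᶠ ε in 𝓝[>] (0:ℝ), -u x t ≤ (1 / (1 - ε)) * Real.log (Real.cos ((1 - ε) * x 0)) +
      (-((1 - ε) * t) + M + ε * t) := by
    have h1 : ∀ᶠ ε in 𝓝[>] (0:ℝ), ε < 1 / 2 :=
      (gt_mem_nhds (by norm_num : (0:ℝ) < 1 / 2)).filter_mono nhdsWithin_le_nhds
    filter_upwards [h1, self_mem_nhdsWithin] with ε h1 h2
    have h3 : (0:ℝ) < ε := h2
    exact lower_A2 hj hu hbl hM (l := 1 - ε) (by linarith) (by linarith) h3 x t hx ht
  have hcat : ContinuousAt (fun ε : ℝ => (1 / (1 - ε)) * Real.log (Real.cos ((1 - ε) * x 0)) +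
      (-((1 - ε) * t) + M + ε * t)) 0 := by
    have h1 : ContinuousAt (fun ε : ℝ => 1 / (1 - ε)) 0 := by
      apply ContinuousAt.div continuousAt_const (by fun_prop) (by norm_num)
    have h2 : ContinuousAt (fun ε : ℝ => Real.cos ((1 - ε) * x 0)) 0 := by fun_prop
    have h3 : Real.cos ((1 - (0:ℝ)) * x 0) ≠ 0 := by
      rw [sub_zero, one_mul]; exact hcos.ne'
    have h4 := h2.log h3
    have h5 : ContinuousAt (fun ε : ℝ => (-((1 - ε) * t) + M + ε * t)) 0 := by fun_prop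
    exact (h1.mul h4).add h5
  have hlim := (hcat.tendsto).mono_left (nhdsWithin_le_nhds (s := Ioi (0:ℝ)))
  have h := ge_of_tendsto hlim hge
  have e : (1 / (1 - (0:ℝ))) * Real.log (Real.cos ((1 - 0) * x 0)) +
      (-((1 - 0) * t) + M + 0 * t) = Real.log (Real.cos (x 0)) - t + M := by
    have h1 : (1:ℝ) - 0 = 1 := by norm_num
    rw [h1, one_mul]
    ring
  rw [e] at h
  unfold grim
  linarith

end Pool.Agent.TH618
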