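import Pool.Agent.TH618.Crude

/-!
# The decaying barriers
-/

set_option autoImplicit false

namespace Pool.Agent.TH618

open Set Filter Topology
open scoped ContDiff

variable {n : ℕ} [NeZero n]

/-- the function `h` in the barriers -/
noncomputable def hh (j : Fin n) (A R δ : ℝ) (x : EuclideanSpace ℝ (Fin n)) (t : ℝ) : ℝ :=
  gs A R (x j) t + δ * SS x + δ * (1 + 2 * ((n:ℝ) - 1) + 2 * ((n:ℝ) - 1) * t)

theorem hh_eq (j : Fin n) (A R δ : ℝ) (x : EuclideanSpace ℝ (Fin n)) (t : ℝ) :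
    Th j (fun _ => (0:ℝ)) (fun s => gs A R s t) δ
      (δ * (1 + 2 * ((n:ℝ) - 1) + 2 * ((n:ℝ) - 1) * t)) x = hh j A R δ x t := by
  simp only [Th, hh]; ring

theorem one_le_n : (0:ℝ) ≤ (n:ℝ) - 1 := by
  have : 1 ≤ n := Nat.one_le_iff_ne_zero.mpr (NeZero.ne n)
  have : (1:ℝ) ≤ n := by exact_mod_cast this
  linarith

theorem hh_ge {j : Fin n} {A R δ : ℝ} (hδ : 0 ≤ δ)
    (x : EuclideanSpace ℝ (Fin n)) {t : ℝ} (ht : -1 < t) :
    gs A R (x j) t + δ * SS x ≤ hh j A R δ x t := by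
  have h1 := one_le_n (n := n)
  have h2 : 0 ≤ 1 + 2 * ((n:ℝ) - 1) + 2 * ((n:ℝ) - 1) * t := by nlinarith
  have := mul_nonneg hδ h2
  unfold hh
  linarith

theorem hh_nonneg {j : Fin n} {A R δ : ℝ} (hA : 0 ≤ A) (hR : 0 ≤ R) (hδ : 0 ≤ δ)
    (x : EuclideanSpace ℝ (Fin n)) {t : ℝ} (ht : -1 < t) : 0 ≤ hh j A R δ x t := by
  have h1 := hh_ge (j := j) (A := A) (R := R) hδ x ht
  have h2 := gs_nonneg hA hR (x j) t
  have h3 := mul_nonneg hδ (SS_nonneg x)
  linarith

theorem continuousOn_hh (j : Fin n) {A R δ : ℝ} (hR : 3 ≤ R) :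
    ContinuousOn (fun p : EuclideanSpace ℝ (Fin n) × ℝ => hh j A R δ p.1 p.2)
      {p | -1 < p.2} := by
  have hpos : ∀ p ∈ {p : EuclideanSpace ℝ (Fin n) × ℝ | -1 < p.2}, 0 < R ^ 2 + 4 * p.2 := by
    intro p hp
    have : -1 < p.2 := hp
    nlinarith
  have hj : Continuous (fun p : EuclideanSpace ℝ (Fin n) × ℝ => p.1 j) :=
    (continuous_coord j).comp continuous_fst
  have hS : Continuous (fun p : EuclideanSpace ℝ (Fin n) × ℝ => SS p.1) :=
    continuous_SS.comp continuous_fst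
  have hτ : Continuous (fun p : EuclideanSpace ℝ (Fin n) × ℝ => R ^ 2 + 4 * p.2) := by fun_prop
  unfold hh gs
  apply ContinuousOn.add
  · apply ContinuousOn.add
    · apply ContinuousOn.mul
      · apply continuousOn_const.mul
        exact (hτ.continuousOn.sqrt).inv₀ (fun p hp => (Real.sqrt_pos.mpr (hpos p hp)).ne')
      · apply ContinuousOn.rexp
        exact ((hj.continuousOn.pow 2).div hτ.continuousOn (fun p hp => (hpos p hp).ne')).neg
    · exact (continuous_const.mul hS).continuousOn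
  · exact Continuous.continuousOn (by fun_prop)

theorem hasDerivAt_hh_t (j : Fin n) {A R δ t : ℝ} (x : EuclideanSpace ℝ (Fin n))
    (ht : 0 < R ^ 2 + 4 * t) :
    HasDerivAt (fun s => hh j A R δ x s)
      ((4 * (x j) ^ 2 / (R ^ 2 + 4 * t) ^ 2 - 2 / (R ^ 2 + 4 * t)) * gs A R (x j) t +
        2 * δ * ((n:ℝ) - 1)) t := by
  have h1 := hasDerivAt_gs_t (A := A) (s := x j) ht
  have h2 : HasDerivAt (fun s : ℝ => δ * (1 + 2 * ((n:ℝ) - 1) + 2 * ((n:ℝ) - 1) * s))
      (2 * δ * ((n:ℝ) - 1)) t := by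
    have := (((hasDerivAt_id t).const_mul (2 * ((n:ℝ) - 1))).const_add
      (1 + 2 * ((n:ℝ) - 1))).const_mul δ
    refine this.congr_deriv ?_
    ring
  exact (h1.add_const (δ * SS x)).fun_add h2

theorem g2_ge {A R s t : ℝ} (hA : 0 ≤ A) (hR : 3 ≤ R) (hAR : 2 * A ≤ R ^ 2) (ht : 0 ≤ t) :
    -1 ≤ (4 * s ^ 2 / (R ^ 2 + 4 * t) ^ 2 - 2 / (R ^ 2 + 4 * t)) * gs A R s t := by
  have hR0 : 0 < R := by linarith
  have hτ : 0 < R ^ 2 + 4 * t := by positivity
  have h1 : gs A R s t ≤ A := by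
    unfold gs
    have h2 : R * (Real.sqrt (R ^ 2 + 4 * t))⁻¹ ≤ 1 := by
      rw [← div_eq_mul_inv, div_le_one (Real.sqrt_pos.mpr hτ)]
      apply Real.le_sqrt_of_sq_le
      linarith
    have h3 : Real.exp (-(s ^ 2 / (R ^ 2 + 4 * t))) ≤ 1 := by
      rw [Real.exp_le_one_iff]
      have : 0 ≤ s ^ 2 / (R ^ 2 + 4 * t) := by positivity
      linarith
    have h4 : 0 ≤ R * (Real.sqrt (R ^ 2 + 4 * t))⁻¹ := by positivity
    calc A * R * (Real.sqrt (R ^ 2 + 4 * t))⁻¹ * Real.exp (-(s ^ 2 / (R ^ 2 + 4 * t)))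
        = A * ((R * (Real.sqrt (R ^ 2 + 4 * t))⁻¹) * Real.exp (-(s ^ 2 / (R ^ 2 + 4 * t)))) := by
          ring
      _ ≤ A * (1 * 1) := by
          apply mul_le_mul_of_nonneg_left _ hA
          exact mul_le_mul h2 h3 (Real.exp_pos _).le (by norm_num)
      _ = A := by ring
  have h0 := gs_nonneg hA hR0.le s t
  have h2 : 0 ≤ 4 * s ^ 2 / (R ^ 2 + 4 * t) ^ 2 * gs A R s t := by positivity
  have h3 : 2 / (R ^ 2 + 4 * t) * gs A R s t ≤ 1 := by
    rw [div_mul_eq_mul_div, div_le_one hτ]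
    nlinarith
  linarith [sub_mul (4 * s ^ 2 / (R ^ 2 + 4 * t) ^ 2) (2 / (R ^ 2 + 4 * t)) (gs A R s t)]

theorem strict_B_upper {l v h g₂ δ P pj : ℝ} (hl : 1 ≤ l) (hh0 : 0 ≤ h) (hg : -1 ≤ g₂)
    (hδ : 0 ≤ δ) (hP : 0 ≤ P) (hpj : pj ^ 2 ≤ P) {m ht : ℝ} (hht : ht = g₂ + 2 * δ * m) :
    0 ≤ -1 * l * v ^ 2 * (1 / (l * (1 + h))) ^ 2 * P - (-(1 / (l * (1 + h) ^ 2))) * (1 + v ^ 2) * P +
      (1 / (l * (1 + h))) ^ 3 * (g₂ * pj ^ 2 + 2 * δ * P) +
      (1 / (l * (1 + h))) * (ht - g₂ - 2 * δ * m) *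
        (1 + v ^ 2 + (1 / (l * (1 + h))) ^ 2 * P) := by
  have hl0 : 0 < l := by linarith
  have h1 : 0 < 1 + h := by linarith
  have key : -1 * l * v ^ 2 * (1 / (l * (1 + h))) ^ 2 * P -
      (-(1 / (l * (1 + h) ^ 2))) * (1 + v ^ 2) * P +
      (1 / (l * (1 + h))) ^ 3 * (g₂ * pj ^ 2 + 2 * δ * P) +
      (1 / (l * (1 + h))) * (ht - g₂ - 2 * δ * m) *
        (1 + v ^ 2 + (1 / (l * (1 + h))) ^ 2 * P) =
      (P * l ^ 2 * (1 + h) + (g₂ * pj ^ 2 + 2 * δ * P)) / (l ^ 3 * (1 + h) ^ 3) := by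
    rw [hht]
    field_simp
    ring
  rw [key]
  apply div_nonneg _ (by positivity)
  have h2 : -P ≤ g₂ * pj ^ 2 := by nlinarith [sq_nonneg pj]
  have h3 : P ≤ P * l ^ 2 * (1 + h) := by
    have h4 : 1 ≤ l ^ 2 * (1 + h) := by nlinarith
    nlinarith
  have h5 : 0 ≤ 2 * δ * P := by positivity
  linarith

theorem strict_B_lower {l v f g₂ δ P pj : ℝ} (hl : 0 < l) (hf : 0 < f) (hg : -1 ≤ g₂)
    (hδ : 0 ≤ δ) (hP : 0 ≤ P) (hpj : pj ^ 2 ≤ P) {m ht : ℝ} (hht : ht = g₂ + 2 * δ * m) :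
    0 ≤ -(-1) * l * v ^ 2 * f ^ 2 * P - (-f ^ 3) * (1 + v ^ 2) * P +
      f ^ 3 * (g₂ * pj ^ 2 + 2 * δ * P) +
      f * (ht - g₂ - 2 * δ * m) * (1 + v ^ 2 + f ^ 2 * P) := by
  have h2 : -P ≤ g₂ * pj ^ 2 := by nlinarith [sq_nonneg pj]
  have key : -(-1) * l * v ^ 2 * f ^ 2 * P - (-f ^ 3) * (1 + v ^ 2) * P +
      f ^ 3 * (g₂ * pj ^ 2 + 2 * δ * P) +
      f * (ht - g₂ - 2 * δ * m) * (1 + v ^ 2 + f ^ 2 * P) =
      l * v ^ 2 * f ^ 2 * P + f ^ 3 * v ^ 2 * P + f ^ 3 * (P + g₂ * pj ^ 2 + 2 * δ * P) := by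
    rw [hht]; ring
  rw [key]
  have h3 : 0 ≤ P + g₂ * pj ^ 2 + 2 * δ * P := by
    have : 0 ≤ 2 * δ * P := by positivity
    linarith
  positivity

theorem upper_B1 {j : Fin n} (hj : j ≠ 0) {u : EuclideanSpace ℝ (Fin n) → ℝ → ℝ}
    (hu : Sol (slab n) u) {M c A R : ℝ} (hM0 : 0 ≤ M) (hc : 0 ≤ c)
    (hM : ∀ x ∈ slab n, ∀ t : ℝ, 0 ≤ t → u x t ≤ grim n x + t + M)
    (hinit0 : ∀ x ∈ slab n, u x 0 ≤ grim n x + c ∨ |x j| ≤ R)
    (hA : Real.exp (2 * M) * Real.exp 1 ≤ A) (hR : 3 ≤ R) (hAR : 2 * A ≤ R ^ 2)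
    {l δ η T : ℝ} (hl : 1 < l) (hl2 : l ≤ 2) (hδ : 0 < δ) (hη : 0 < η)
    (x : EuclideanSpace ℝ (Fin n)) (t : ℝ) (hx1 : -(Real.pi / 2) < l * x 0)
    (hx2 : l * x 0 < Real.pi / 2) (ht0 : 0 ≤ t) (htT : t ≤ T) :
    u x t ≤ -(1 / l) * Real.log (Real.cos (l * x 0)) + (l * t + c + η * t) +
      (1 / l) * Real.log (1 + hh j A R δ x t) := by
  have hpi := Real.pi_pos
  have hl0 : 0 < l := by linarith
  have hA0 : 0 ≤ A := le_trans (by positivity) hA
  have hR0 : 0 ≤ R := by linarith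
  have hT0 : 0 ≤ T := ht0.trans htT
  set Ω : Set (EuclideanSpace ℝ (Fin n) × ℝ) :=
    {p | (-(Real.pi / 2) < l * p.1 0 ∧ l * p.1 0 < Real.pi / 2) ∧ -1 < p.2} with hΩdef
  have hc0 : Continuous (fun p : EuclideanSpace ℝ (Fin n) × ℝ => l * p.1 0) :=
    continuous_const.mul ((continuous_coord 0).comp continuous_fst)
  have hΩ : IsOpen Ω :=
    ((isOpen_lt continuous_const hc0).inter (isOpen_lt hc0 continuous_const)).inter
      (isOpen_lt continuous_const continuous_snd)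
  have hslab : ∀ y : EuclideanSpace ℝ (Fin n), |l * y 0| ≤ Real.pi / 2 → y ∈ slab n := by
    intro y hy
    rw [abs_le] at hy
    constructor
    · by_contra hcon
      push Not at hcon
      nlinarith [hy.1]
    · by_contra hcon
      push Not at hcon
      nlinarith [hy.2]
  have hΩU : ∀ p ∈ Ω, p.1 ∈ slab n := by
    intro p hp
    exact hslab p.1 (abs_le.mpr ⟨hp.1.1.le, hp.1.2.le⟩)
  have hcosΩ : ∀ p ∈ Ω, 0 < Real.cos (l * p.1 0) := fun p hp => Real.cos_pos_of_mem_Ioo hp.1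
  -- a bound for `u`
  have hcosb : 0 < Real.cos (Real.pi / 2 / l) := by
    apply Real.cos_pos_of_mem_Ioo
    constructor
    · have : 0 < Real.pi / 2 / l := by positivity
      linarith
    · rw [div_lt_iff₀ hl0]; nlinarith
  set B : ℝ := max (-Real.log (Real.cos (Real.pi / 2 / l)) + T + M) 0 with hB
  have huB : ∀ x t, (x, t) ∈ Ω → 0 ≤ t → t ≤ T → u x t ≤ B := by
    intro x t hxt h0 hT'
    have h1 := hM x (hΩU _ hxt) t h0
    have h2 : Real.cos (Real.pi / 2 / l) ≤ Real.cos (x 0) := by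
      rw [← Real.cos_abs (x 0)]
      apply Real.cos_le_cos_of_nonneg_of_le_pi (abs_nonneg _)
      · rw [div_le_iff₀ hl0]; nlinarith
      · rw [le_div_iff₀ hl0, mul_comm]
        have h3 : |l * x 0| ≤ Real.pi / 2 := abs_le.mpr ⟨hxt.1.1.le, hxt.1.2.le⟩
        rwa [abs_mul, abs_of_pos hl0] at h3
    have h3 := Real.log_le_log hcosb h2
    refine le_trans ?_ (le_max_left _ _)
    unfold grim at h1
    linarith
  -- the compact set
  set κ₀ : ℝ := Real.exp (-(l * B)) with hκ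
  have hκ0 : 0 < κ₀ := Real.exp_pos _
  set R₁ : ℝ := Real.exp (l * B) / δ with hR₁
  set K : Set (EuclideanSpace ℝ (Fin n) × ℝ) :=
    ({y : EuclideanSpace ℝ (Fin n) | |y 0| ≤ Real.pi / 2 / l ∧ SS y ≤ R₁} ∩
      {y | κ₀ ≤ Real.cos (l * y 0)}) ×ˢ Icc 0 T with hKdef
  have hK : IsCompact K := by
    apply IsCompact.prod _ isCompact_Icc
    apply (isCompact_box _ _).inter_right
    exact isClosed_le continuous_const
      (Real.continuous_cos.comp (continuous_const.mul (continuous_coord 0)))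
  have hKΩ : K ⊆ Ω := by
    intro p hp
    have h1 : |p.1 0| ≤ Real.pi / 2 / l := hp.1.1.1
    have h2 : κ₀ ≤ Real.cos (l * p.1 0) := hp.1.2
    have h1' : |l * p.1 0| ≤ Real.pi / 2 := by
      rw [abs_mul, abs_of_pos hl0]
      rwa [le_div_iff₀ hl0, mul_comm] at h1
    have h3 := abs_le.mp h1'
    have h4 : 0 < Real.cos (l * p.1 0) := lt_of_lt_of_le hκ0 h2
    have h5 : (0:ℝ) ≤ p.2 := hp.2.1
    refine ⟨⟨lt_of_le_of_ne h3.1 ?_, lt_of_le_of_ne h3.2 ?_⟩, by linarith⟩
    · intro h; rw [← h, Real.cos_neg, Real.cos_pi_div_two] at h4; exact lt_irrefl _ h4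
    · intro h; rw [h, Real.cos_pi_div_two] at h4; exact lt_irrefl _ h4
  -- the barrier
  set Φ : EuclideanSpace ℝ (Fin n) → ℝ → ℝ := fun x t =>
    -(1 / l) * Real.log (Real.cos (l * x 0)) + (l * t + c + η * t) +
      (1 / l) * Real.log (1 + hh j A R δ x t) with hΦ
  have hΦbar : ∀ (t : ℝ), (fun y => Φ y t) = Bar j
      (fun s => -(1 / l) * Real.log (Real.cos (l * s)) + (l * t + c + η * t))
      (fun _ => 0) (fun s => gs A R s t) (fun s => (1 / l) * Real.log (1 + s)) δ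
      (δ * (1 + 2 * ((n:ℝ) - 1) + 2 * ((n:ℝ) - 1) * t)) := by
    intro t
    funext y
    simp only [hΦ, Bar, hh_eq]
  have hhΩ : ∀ p ∈ Ω, 0 < 1 + hh j A R δ p.1 p.2 := by
    intro p hp
    have := hh_nonneg (j := j) hA0 hR0 hδ.le p.1 hp.2
    linarith
  have hstrict : ∀ x t, (x, t) ∈ Ω → 0 < t → t ≤ T → ∃ φt, HasDerivAt (fun s => Φ x s) φt t ∧
      ContDiffAt ℝ 2 (fun y => Φ y t) x ∧ mop (fun y => Φ y t) x < φt := by
    intro x t hxt ht _
    have hτ : 0 < R ^ 2 + 4 * t := by positivity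
    have hhp : 0 < 1 + hh j A R δ x t := hhΩ _ hxt
    have hTh := hh_eq j A R δ x t
    have hF : TwoDer (fun s => (1 / l) * Real.log (1 + s)) (fun s => 1 / (l * (1 + s)))
      (-(1 / (l * (1 + hh j A R δ x t) ^ 2))) (Th j (fun _ => (0:ℝ)) (fun s => gs A R s t) δ
      (δ * (1 + 2 * ((n:ℝ) - 1) + 2 * ((n:ℝ) - 1) * t)) x) := by
      rw [hTh]; exact twoDer_log hhp
    have hG := twoDer_const (0:ℝ) (x 0)
    have hV := twoDer_V (κ := 1) (l * t + c + η * t) hl0.ne' (hcosΩ _ hxt)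
    have hg := twoDer_gs A R t (x j)
    set g₂ : ℝ := (4 * (x j) ^ 2 / (R ^ 2 + 4 * t) ^ 2 - 2 / (R ^ 2 + 4 * t)) * gs A R (x j) t
      with hg₂
    refine ⟨1 * l + η + (1 / (l * (1 + hh j A R δ x t))) * (g₂ + 2 * δ * ((n:ℝ) - 1)), ?_, ?_, ?_⟩
    · have h2 := hasDerivAt_hh_t j (A := A) (δ := δ) x hτ
      have h3 := ((h2.const_add 1).log hhp.ne').const_mul (1 / l)
      have h4 : HasDerivAt (fun s : ℝ => l * s + c + η * s) (l + η) t := by
        have h5 : HasDerivAt (fun s : ℝ => l * s) l t := by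
          simpa using (hasDerivAt_id t).const_mul l
        have h6 : HasDerivAt (fun s : ℝ => η * s) η t := by
          simpa using (hasDerivAt_id t).const_mul η
        exact (h5.add_const c).fun_add h6
      have h5 := (h4.const_add (-(1 / l) * Real.log (Real.cos (l * x 0)))).fun_add h3
      refine h5.congr_deriv ?_
      rw [← hg₂]
      field_simp
    · rw [hΦbar]
      exact contDiffAt_Bar hV.smooth hG.smooth hg.smooth hF.smooth
    · rw [hΦbar]
      have hf₁ : 1 / (l * (1 + hh j A R δ x t)) = (fun s : ℝ => 1 / (l * (1 + s)))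
          (Th j (fun _ => (0:ℝ)) (fun s => gs A R s t) δ
          (δ * (1 + 2 * ((n:ℝ) - 1) + 2 * ((n:ℝ) - 1) * t)) x) := by
        rw [hTh]
      have hm := mop_bar hj hV hG hg hF hf₁ rfl rfl
      rw [hm]
      set g' : ℝ := -(2 * (x j) / (R ^ 2 + 4 * t)) * gs A R (x j) t with hg'
      have hPn := PP_nonneg j g' δ x
      have hpj := pp_sq_le j g' δ x j
      have hX := strict_B_upper (l := l) (v := Real.tan (l * x 0)) (h := hh j A R δ x t)
        (g₂ := g₂) (δ := δ) (P := PP j g' δ x) (pj := pp j g' δ x j) (m := (n:ℝ) - 1)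
        (ht := g₂ + 2 * δ * ((n:ℝ) - 1)) hl.le
        (hh_nonneg (j := j) hA0 hR0 hδ.le x (by linarith)) (g2_ge hA0 hR hAR ht.le)
        hδ.le hPn hpj rfl
      have hs := strict_I (κ := 1) (l := l) (v := Real.tan (l * x 0)) (η := η)
        (f₁ := 1 / (l * (1 + hh j A R δ x t))) (F₂ := -(1 / (l * (1 + hh j A R δ x t) ^ 2)))
        (g₂ := g₂) (ht := g₂ + 2 * δ * ((n:ℝ) - 1)) (δ := δ)
        (P := PP j g' δ x) (pj := pp j g' δ x j) (m := (n:ℝ) - 1) hη hPn hX
      refine lt_of_eq_of_lt ?_ hs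
      simp only [mul_zero, zero_mul, add_zero, zero_add, ne_eq, OfNat.ofNat_ne_zero,
        not_false_eq_true, zero_pow, one_mul]
  have hcΦ : ContinuousOn (fun p : EuclideanSpace ℝ (Fin n) × ℝ => Φ p.1 p.2) Ω := by
    have h1 : ContinuousOn (fun p : EuclideanSpace ℝ (Fin n) × ℝ =>
        Real.log (1 + hh j A R δ p.1 p.2)) Ω :=
      (continuousOn_const.add ((continuousOn_hh j hR).mono (fun p hp => hp.2))).log
        (fun p hp => ne_of_gt (hhΩ p hp))
    have h2 : Continuous (fun p : EuclideanSpace ℝ (Fin n) × ℝ =>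
      (l * p.2 + c + η * p.2)) := by fun_prop
    have h3 : ContinuousOn (fun p : EuclideanSpace ℝ (Fin n) × ℝ =>
        Real.log (Real.cos (l * p.1 0))) Ω :=
      (Real.continuous_cos.comp hc0).continuousOn.log (fun p hp => ne_of_gt (hcosΩ p hp))
    exact ((continuousOn_const.mul h3).add h2.continuousOn).add (continuousOn_const.mul h1)
  have hinit : ∀ x, (x, (0:ℝ)) ∈ Ω → u x 0 ≤ Φ x 0 := by
    intro x hx
    have hxs := hΩU _ hx
    have h4 := log_cos_scale hl.le hx.1.1 hx.1.2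
    have h5 : (1 / l) * Real.log (Real.cos (l * x 0)) ≤ Real.log (Real.cos (x 0)) := by
      have h6 := mul_le_mul_of_nonneg_left h4 (by positivity : (0:ℝ) ≤ 1 / l)
      have e : 1 / l * (l * Real.log (Real.cos (x 0))) = Real.log (Real.cos (x 0)) := by
        field_simp
      rwa [e] at h6
    have hh0 := hh_nonneg (j := j) hA0 hR0 hδ.le x (t := 0) (by norm_num)
    simp only [hΦ]
    rcases hinit0 x hxs with h | h
    · have h6 : 0 ≤ (1 / l) * Real.log (1 + hh j A R δ x 0) :=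
        mul_nonneg (by positivity) (Real.log_nonneg (by linarith))
      unfold grim at h
      linarith
    · have h6 := hM x hxs 0 le_rfl
      have h7 : M ≤ (1 / l) * Real.log (1 + hh j A R δ x 0) := by
        have h8 := hh_ge (j := j) (A := A) (R := R) hδ.le x (t := 0) (by norm_num)
        have h9 := mul_nonneg hδ.le (SS_nonneg x)
        have h10 : Real.exp (2 * M) ≤ gs A R (x j) 0 := by
          unfold gs
          have hR0' : 0 < R := by linarith
          have e1 : Real.sqrt (R ^ 2 + 4 * 0) = R := by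
            rw [mul_zero, add_zero, Real.sqrt_sq hR0]
          have e2 : R ^ 2 + 4 * (0:ℝ) = R ^ 2 := by ring
          rw [e1, e2]
          have e3 : A * R * R⁻¹ = A := by field_simp
          rw [e3]
          have h11 : Real.exp (-1) ≤ Real.exp (-((x j) ^ 2 / R ^ 2)) := by
            apply Real.exp_le_exp.mpr
            have : (x j) ^ 2 / R ^ 2 ≤ 1 := by
              rw [div_le_one (by positivity), ← sq_abs]
              have := abs_nonneg (x j)
              nlinarith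
            linarith
          have h12 : Real.exp (2 * M) * Real.exp 1 * Real.exp (-1) ≤
              A * Real.exp (-((x j) ^ 2 / R ^ 2)) :=
            mul_le_mul hA h11 (Real.exp_pos _).le hA0
          have e4 : Real.exp (2 * M) * Real.exp 1 * Real.exp (-1) = Real.exp (2 * M) := by
            rw [mul_assoc, ← Real.exp_add]; simp
          rwa [e4] at h12
        have h11 : Real.exp (l * M) ≤ 1 + hh j A R δ x 0 := by
          have : Real.exp (l * M) ≤ Real.exp (2 * M) :=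
            Real.exp_le_exp.mpr (mul_le_mul_of_nonneg_right hl2 hM0)
          linarith
        have h12 := Real.log_le_log (Real.exp_pos _) h11
        rw [Real.log_exp] at h12
        have h13 := mul_le_mul_of_nonneg_left h12 (by positivity : (0:ℝ) ≤ 1 / l)
        have e : 1 / l * (l * M) = M := by field_simp
        rwa [e] at h13
      unfold grim at h6
      linarith
  have hout : ∀ x t, (x, t) ∈ Ω → 0 ≤ t → t ≤ T → (x, t) ∉ K → u x t ≤ Φ x t := by
    intro x t hxt h0 hT' hnK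
    have huB' := huB x t hxt h0 hT'
    have hcosp := hcosΩ _ hxt
    have hB0 : 0 ≤ B := le_max_right _ _
    have h1 : 0 ≤ -(1 / l) * Real.log (Real.cos (l * x 0)) := by
      have := Real.log_nonpos hcosp.le (Real.cos_le_one _)
      have h2 : 0 ≤ 1 / l := by positivity
      simp only at this
      nlinarith
    have hh0 := hh_nonneg (j := j) hA0 hR0 hδ.le x (t := t) (by linarith)
    have h2 : 0 ≤ (1 / l) * Real.log (1 + hh j A R δ x t) :=
      mul_nonneg (by positivity) (Real.log_nonneg (by linarith))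
    have h3 : 0 ≤ l * t + c + η * t := by positivity
    simp only [hΦ]
    have hbox : |x 0| ≤ Real.pi / 2 / l := by
      rw [le_div_iff₀ hl0, mul_comm]
      have h3 : |l * x 0| ≤ Real.pi / 2 := abs_le.mpr ⟨hxt.1.1.le, hxt.1.2.le⟩
      rwa [abs_mul, abs_of_pos hl0] at h3
    by_cases hc1 : κ₀ ≤ Real.cos (l * x 0)
    · -- then `SS x > R₁`
      have h4 : R₁ < SS x := by
        by_contra hcon
        push Not at hcon
        exact hnK ⟨⟨⟨hbox, hcon⟩, hc1⟩, h0, hT'⟩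
      have h5 : Real.exp (l * B) ≤ 1 + hh j A R δ x t := by
        have h6 := hh_ge (j := j) (A := A) (R := R) hδ.le x (t := t) (by linarith)
        have h7 := gs_nonneg hA0 hR0 (x j) t
        rw [hR₁, div_lt_iff₀ hδ] at h4
        linarith
      have h12 := Real.log_le_log (Real.exp_pos _) h5
      rw [Real.log_exp] at h12
      have h13 := mul_le_mul_of_nonneg_left h12 (by positivity : (0:ℝ) ≤ 1 / l)
      have e : 1 / l * (l * B) = B := by field_simp
      rw [e] at h13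
      linarith
    · push Not at hc1
      have h12 := Real.log_le_log hcosp hc1.le
      rw [hκ, Real.log_exp] at h12
      have h13 := mul_le_mul_of_nonneg_left h12 (by positivity : (0:ℝ) ≤ 1 / l)
      have e : 1 / l * -(l * B) = -B := by field_simp
      rw [e] at h13
      simp only at h13
      linarith
  exact comparison hu hΩ hΩU hK hKΩ (fun p hp => hp.2) hcΦ hstrict hinit hout x t
    ⟨⟨hx1, hx2⟩, by simp only; linarith⟩ ht0 htT

theorem lower_B1 {j : Fin n} (hj : j ≠ 0) {u : EuclideanSpace ℝ (Fin n) → ℝ → ℝ}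
    (hu : Sol (slab n) u) {M c A R : ℝ} (hM0 : 0 ≤ M) (hc : 0 ≤ c)
    (hM : ∀ x ∈ slab n, ∀ t : ℝ, 0 ≤ t → grim n x + t - M ≤ u x t)
    (hinit0 : ∀ x ∈ slab n, grim n x - c ≤ u x 0 ∨ |x j| ≤ R)
    (hA : Real.exp (2 * M) * Real.exp 1 ≤ A) (hR : 3 ≤ R) (hAR : 2 * A ≤ R ^ 2)
    {l δ η T : ℝ} (hl : 1 / 2 ≤ l) (hl1 : l < 1) (hδ : 0 < δ) (hη : 0 < η)
    (x : EuclideanSpace ℝ (Fin n)) (t : ℝ) (hx : x ∈ slab n) (ht0 : 0 ≤ t) (htT : t ≤ T) :
    -u x t ≤ (1 / l) * Real.log (Real.cos (l * x 0)) + (-(l * t) + (c - 1) + η * t) +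
      Real.sqrt (1 + 2 * hh j A R δ x t) := by
  have hpi := Real.pi_pos
  have hl0 : 0 < l := by linarith
  have hA0 : 0 ≤ A := le_trans (by positivity) hA
  have hR0 : 0 ≤ R := by linarith
  have hT0 : 0 ≤ T := ht0.trans htT
  set Ω : Set (EuclideanSpace ℝ (Fin n) × ℝ) :=
    {p | (-(Real.pi / 2) < p.1 0 ∧ p.1 0 < Real.pi / 2) ∧ -1 < p.2} with hΩdef
  have hc0 : Continuous (fun p : EuclideanSpace ℝ (Fin n) × ℝ => p.1 0) :=
    (continuous_coord 0).comp continuous_fst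
  have hΩ : IsOpen Ω :=
    ((isOpen_lt continuous_const hc0).inter (isOpen_lt hc0 continuous_const)).inter
      (isOpen_lt continuous_const continuous_snd)
  have hΩU : ∀ p ∈ Ω, p.1 ∈ slab n := fun p hp => hp.1
  have hcosl : ∀ s : ℝ, |s| ≤ Real.pi / 2 → Real.cos (l * (Real.pi / 2)) ≤ Real.cos (l * s) := by
    intro s hs
    rw [← Real.cos_abs (l * s), abs_mul, abs_of_pos hl0]
    apply Real.cos_le_cos_of_nonneg_of_le_pi
    · positivity
    · nlinarith
    · exact mul_le_mul_of_nonneg_left hs hl0.le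
  have hcosb : 0 < Real.cos (l * (Real.pi / 2)) := by
    apply Real.cos_pos_of_mem_Ioo
    constructor <;> nlinarith
  have hcosΩ : ∀ p ∈ Ω, 0 < Real.cos (l * p.1 0) := by
    intro p hp
    apply Real.cos_pos_of_mem_Ioo
    have h1 := hp.1.1
    have h2 := hp.1.2
    constructor <;> nlinarith
  -- a lower bound for the barrier without the last term
  set B₁ : ℝ := |(1 / l) * Real.log (Real.cos (l * (Real.pi / 2)))| + l * T + 1 with hB₁
  have hB₁0 : 0 ≤ B₁ := by positivity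
  have hlow : ∀ x t, (x, t) ∈ Ω → 0 ≤ t → t ≤ T →
      -B₁ ≤ (1 / l) * Real.log (Real.cos (l * x 0)) + (-(l * t) + (c - 1) + η * t) := by
    intro x t hxt h0 hT'
    have h1 : |x 0| ≤ Real.pi / 2 := abs_le.mpr ⟨hxt.1.1.le, hxt.1.2.le⟩
    have h2 := Real.log_le_log hcosb (hcosl (x 0) h1)
    have h3 := mul_le_mul_of_nonneg_left h2 (by positivity : (0:ℝ) ≤ 1 / l)
    have h4 : l * t ≤ l * T := mul_le_mul_of_nonneg_left hT' hl0.le
    have h5 : 0 ≤ η * t := mul_nonneg hη.le h0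
    have h6 := neg_abs_le ((1 / l) * Real.log (Real.cos (l * (Real.pi / 2))))
    linarith
  -- the compact set
  set κ₀ : ℝ := Real.exp (-(B₁ + M)) with hκ
  have hκ0 : 0 < κ₀ := Real.exp_pos _
  set R₁ : ℝ := (B₁ + M) ^ 2 / (2 * δ) with hR₁
  set K : Set (EuclideanSpace ℝ (Fin n) × ℝ) :=
    ({y : EuclideanSpace ℝ (Fin n) | |y 0| ≤ Real.pi / 2 ∧ SS y ≤ R₁} ∩
      {y | κ₀ ≤ Real.cos (y 0)}) ×ˢ Icc 0 T with hKdef
  have hK : IsCompact K := by
    apply IsCompact.prod _ isCompact_Icc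
    apply (isCompact_box _ _).inter_right
    exact isClosed_le continuous_const (Real.continuous_cos.comp (continuous_coord 0))
  have hKΩ : K ⊆ Ω := by
    intro p hp
    have h1 : |p.1 0| ≤ Real.pi / 2 := hp.1.1.1
    have h2 : κ₀ ≤ Real.cos (p.1 0) := hp.1.2
    have h3 := abs_le.mp h1
    have h4 : 0 < Real.cos (p.1 0) := lt_of_lt_of_le hκ0 h2
    have h5 : (0:ℝ) ≤ p.2 := hp.2.1
    refine ⟨⟨lt_of_le_of_ne h3.1 ?_, lt_of_le_of_ne h3.2 ?_⟩, by linarith⟩
    · intro h; rw [← h, Real.cos_neg, Real.cos_pi_div_two] at h4; exact lt_irrefl _ h4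
    · intro h; rw [h, Real.cos_pi_div_two] at h4; exact lt_irrefl _ h4
  -- the barrier
  set Φ : EuclideanSpace ℝ (Fin n) → ℝ → ℝ := fun x t =>
    (1 / l) * Real.log (Real.cos (l * x 0)) + (-(l * t) + (c - 1) + η * t) +
      Real.sqrt (1 + 2 * hh j A R δ x t) with hΦ
  have hΦbar : ∀ (t : ℝ), (fun y => Φ y t) = Bar j
      (fun s => -((-1) / l) * Real.log (Real.cos (l * s)) + (-(l * t) + (c - 1) + η * t))
      (fun _ => 0) (fun s => gs A R s t) (fun s => Real.sqrt (1 + 2 * s)) δ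
      (δ * (1 + 2 * ((n:ℝ) - 1) + 2 * ((n:ℝ) - 1) * t)) := by
    intro t
    funext y
    simp only [hΦ, Bar, hh_eq]
    ring
  have hhΩ : ∀ p ∈ Ω, 0 < 1 + 2 * hh j A R δ p.1 p.2 := by
    intro p hp
    have := hh_nonneg (j := j) hA0 hR0 hδ.le p.1 hp.2
    linarith
  have hstrict : ∀ x t, (x, t) ∈ Ω → 0 < t → t ≤ T → ∃ φt, HasDerivAt (fun s => Φ x s) φt t ∧
      ContDiffAt ℝ 2 (fun y => Φ y t) x ∧ mop (fun y => Φ y t) x < φt := by
    intro x t hxt ht _
    have hτ : 0 < R ^ 2 + 4 * t := by positivity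
    have hhp : 0 < 1 + 2 * hh j A R δ x t := hhΩ _ hxt
    have hTh := hh_eq j A R δ x t
    have hF : TwoDer (fun s => Real.sqrt (1 + 2 * s)) (fun s => 1 / Real.sqrt (1 + 2 * s))
      (-(1 / Real.sqrt (1 + 2 * hh j A R δ x t)) ^ 3)
      (Th j (fun _ => (0:ℝ)) (fun s => gs A R s t) δ
      (δ * (1 + 2 * ((n:ℝ) - 1) + 2 * ((n:ℝ) - 1) * t)) x) := by
      rw [hTh]; exact twoDer_sqrt hhp
    have hG := twoDer_const (0:ℝ) (x 0)
    have hV := twoDer_V (κ := -1) (-(l * t) + (c - 1) + η * t) hl0.ne' (hcosΩ _ hxt)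
    have hg := twoDer_gs A R t (x j)
    have hsq := Real.sqrt_pos.mpr hhp
    set g₂ : ℝ := (4 * (x j) ^ 2 / (R ^ 2 + 4 * t) ^ 2 - 2 / (R ^ 2 + 4 * t)) * gs A R (x j) t
      with hg₂
    refine ⟨(-1) * l + η + (1 / Real.sqrt (1 + 2 * hh j A R δ x t)) *
      (g₂ + 2 * δ * ((n:ℝ) - 1)), ?_, ?_, ?_⟩
    · have h2 := hasDerivAt_hh_t j (A := A) (δ := δ) x hτ
      have h3 := ((h2.const_mul 2).const_add 1).sqrt hhp.ne'
      have h4 : HasDerivAt (fun s : ℝ => -(l * s) + (c - 1) + η * s) (-l + η) t := by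
        have h5 : HasDerivAt (fun s : ℝ => -(l * s)) (-l) t := by
          simpa using ((hasDerivAt_id t).const_mul l).fun_neg
        have h6 : HasDerivAt (fun s : ℝ => η * s) η t := by
          simpa using (hasDerivAt_id t).const_mul η
        exact (h5.add_const (c - 1)).fun_add h6
      have h5 := (h4.const_add ((1 / l) * Real.log (Real.cos (l * x 0)))).fun_add h3
      refine h5.congr_deriv ?_
      rw [← hg₂]
      field_simp
    · rw [hΦbar]
      exact contDiffAt_Bar hV.smooth hG.smooth hg.smooth hF.smooth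
    · rw [hΦbar]
      have hf₁ : 1 / Real.sqrt (1 + 2 * hh j A R δ x t) = (fun s : ℝ => 1 / Real.sqrt (1 + 2 * s))
          (Th j (fun _ => (0:ℝ)) (fun s => gs A R s t) δ
          (δ * (1 + 2 * ((n:ℝ) - 1) + 2 * ((n:ℝ) - 1) * t)) x) := by
        rw [hTh]
      have hm := mop_bar hj hV hG hg hF hf₁ rfl rfl
      rw [hm]
      set g' : ℝ := -(2 * (x j) / (R ^ 2 + 4 * t)) * gs A R (x j) t with hg'
      have hPn := PP_nonneg j g' δ x
      have hpj := pp_sq_le j g' δ x j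
      have hX := strict_B_lower (l := l) (v := Real.tan (l * x 0))
        (f := 1 / Real.sqrt (1 + 2 * hh j A R δ x t))
        (g₂ := g₂) (δ := δ) (P := PP j g' δ x) (pj := pp j g' δ x j) (m := (n:ℝ) - 1)
        (ht := g₂ + 2 * δ * ((n:ℝ) - 1)) hl0 (by positivity) (g2_ge hA0 hR hAR ht.le)
        hδ.le hPn hpj rfl
      have hs := strict_I (κ := -1) (l := l) (v := Real.tan (l * x 0)) (η := η)
        (f₁ := 1 / Real.sqrt (1 + 2 * hh j A R δ x t))
        (F₂ := -(1 / Real.sqrt (1 + 2 * hh j A R δ x t)) ^ 3)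
        (g₂ := g₂) (ht := g₂ + 2 * δ * ((n:ℝ) - 1)) (δ := δ)
        (P := PP j g' δ x) (pj := pp j g' δ x j) (m := (n:ℝ) - 1) hη hPn hX
      refine lt_of_eq_of_lt ?_ hs
      simp only [mul_zero, zero_mul, add_zero, zero_add, ne_eq, OfNat.ofNat_ne_zero,
        not_false_eq_true, zero_pow]
      ring_nf
  have hcΦ : ContinuousOn (fun p : EuclideanSpace ℝ (Fin n) × ℝ => Φ p.1 p.2) Ω := by
    have h1 : ContinuousOn (fun p : EuclideanSpace ℝ (Fin n) × ℝ =>
        Real.sqrt (1 + 2 * hh j A R δ p.1 p.2)) Ω :=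
      (continuousOn_const.add (continuousOn_const.mul
        ((continuousOn_hh j hR).mono (fun p hp => hp.2)))).sqrt
    have h2 : Continuous (fun p : EuclideanSpace ℝ (Fin n) × ℝ =>
      (-(l * p.2) + (c - 1) + η * p.2)) := by fun_prop
    have h3 : ContinuousOn (fun p : EuclideanSpace ℝ (Fin n) × ℝ =>
        Real.log (Real.cos (l * p.1 0))) Ω :=
      (Real.continuous_cos.comp (continuous_const.mul hc0)).continuousOn.log
        (fun p hp => ne_of_gt (hcosΩ p hp))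
    exact ((continuousOn_const.mul h3).add h2.continuousOn).add h1
  have hinit : ∀ x, (x, (0:ℝ)) ∈ Ω → -u x 0 ≤ Φ x 0 := by
    intro x hx
    have hxs : x ∈ slab n := hΩU _ hx
    have h4 := log_cos_scale (l := 1 / l) (s := l * x 0) (by rw [le_div_iff₀ hl0]; linarith)
      (by have : 1 / l * (l * x 0) = x 0 := by field_simp
          rw [this]; exact hxs.1)
      (by have : 1 / l * (l * x 0) = x 0 := by field_simp
          rw [this]; exact hxs.2)
    have e : 1 / l * (l * x 0) = x 0 := by field_simp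
    rw [e] at h4
    have hh0 := hh_nonneg (j := j) hA0 hR0 hδ.le x (t := 0) (by norm_num)
    simp only [hΦ]
    rcases hinit0 x hxs with h | h
    · have h6 : 1 ≤ Real.sqrt (1 + 2 * hh j A R δ x 0) := by
        rw [Real.one_le_sqrt]; linarith
      unfold grim at h
      linarith
    · have h6 := hM x hxs 0 le_rfl
      have h7 : 1 + M ≤ Real.sqrt (1 + 2 * hh j A R δ x 0) := by
        have h8 := hh_ge (j := j) (A := A) (R := R) hδ.le x (t := 0) (by norm_num)
        have h9 := mul_nonneg hδ.le (SS_nonneg x)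
        have h10 : Real.exp (2 * M) ≤ gs A R (x j) 0 := by
          unfold gs
          have hR0' : 0 < R := by linarith
          have e1 : Real.sqrt (R ^ 2 + 4 * 0) = R := by
            rw [mul_zero, add_zero, Real.sqrt_sq hR0]
          have e2 : R ^ 2 + 4 * (0:ℝ) = R ^ 2 := by ring
          rw [e1, e2]
          have e3 : A * R * R⁻¹ = A := by field_simp
          rw [e3]
          have h11 : Real.exp (-1) ≤ Real.exp (-((x j) ^ 2 / R ^ 2)) := by
            apply Real.exp_le_exp.mpr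
            have : (x j) ^ 2 / R ^ 2 ≤ 1 := by
              rw [div_le_one (by positivity), ← sq_abs]
              have := abs_nonneg (x j)
              nlinarith
            linarith
          have h12 : Real.exp (2 * M) * Real.exp 1 * Real.exp (-1) ≤
              A * Real.exp (-((x j) ^ 2 / R ^ 2)) :=
            mul_le_mul hA h11 (Real.exp_pos _).le hA0
          have e4 : Real.exp (2 * M) * Real.exp 1 * Real.exp (-1) = Real.exp (2 * M) := by
            rw [mul_assoc, ← Real.exp_add]; simp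
          rwa [e4] at h12
        apply Real.le_sqrt_of_sq_le
        have h11 : (1 + M) ^ 2 ≤ Real.exp (2 * M) := by
          have h12 : M + 1 ≤ Real.exp M := Real.add_one_le_exp M
          have h13 : Real.exp (2 * M) = Real.exp M ^ 2 := by
            rw [← Real.exp_nat_mul]; norm_num
          rw [h13]
          nlinarith
        have h14 := Real.exp_pos (2 * M)
        linarith
      unfold grim at h6
      linarith
  have hout : ∀ x t, (x, t) ∈ Ω → 0 ≤ t → t ≤ T → (x, t) ∉ K → -u x t ≤ Φ x t := by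
    intro x t hxt h0 hT' hnK
    have hxs : x ∈ slab n := hΩU _ hxt
    have huM := hM x hxs t h0
    unfold grim at huM
    have hcosp : 0 < Real.cos (x 0) := Real.cos_pos_of_mem_Ioo hxs
    have hlo := hlow x t hxt h0 hT'
    have hh0 := hh_nonneg (j := j) hA0 hR0 hδ.le x (t := t) (by linarith)
    have hlogc := Real.log_nonpos hcosp.le (Real.cos_le_one _)
    simp only [hΦ]
    have hbox : |x 0| ≤ Real.pi / 2 := abs_le.mpr ⟨hxt.1.1.le, hxt.1.2.le⟩
    by_cases hc1 : κ₀ ≤ Real.cos (x 0)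
    · have h4 : R₁ < SS x := by
        by_contra hcon
        push Not at hcon
        exact hnK ⟨⟨⟨hbox, hcon⟩, hc1⟩, h0, hT'⟩
      have h5 : B₁ + M ≤ Real.sqrt (1 + 2 * hh j A R δ x t) := by
        have h6 := hh_ge (j := j) (A := A) (R := R) hδ.le x (t := t) (by linarith)
        have h7 := gs_nonneg hA0 hR0 (x j) t
        rw [hR₁, div_lt_iff₀ (by positivity)] at h4
        apply Real.le_sqrt_of_sq_le
        nlinarith
      linarith
    · push Not at hc1
      have h12 := Real.log_le_log hcosp hc1.le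
      rw [hκ, Real.log_exp] at h12
      have h13 := Real.sqrt_nonneg (1 + 2 * hh j A R δ x t)
      linarith
  exact comparison hu.neg hΩ hΩU hK hKΩ (fun p hp => hp.2) hcΦ hstrict hinit hout x t
    ⟨hx, by simp only; linarith⟩ ht0 htT

end Pool.Agent.TH618
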