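import Mathlib

/-!
# The graphical mean curvature operator

Expansion of `√(1+|Df|²) div (Df / √(1+|Df|²))` and its behaviour at interior maxima.
-/

set_option autoImplicit false

namespace Pool.Agent.TH618

open Set Filter Topology
open scoped ContDiff

/-- The divergence of a vector field on `ℝⁿ`. -/
noncomputable def divergence {n : ℕ} (X : EuclideanSpace ℝ (Fin n) → EuclideanSpace ℝ (Fin n))
    (x : EuclideanSpace ℝ (Fin n)) : ℝ :=
  ∑ i, fderiv ℝ (fun y => X y i) x (EuclideanSpace.single i 1)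

/-- the second derivative as a bilinear form -/
noncomputable def hess {n : ℕ} (f : EuclideanSpace ℝ (Fin n) → ℝ) (x ξ η : EuclideanSpace ℝ (Fin n)) :
    ℝ :=
  fderiv ℝ (fderiv ℝ f) x ξ η

/-- the mean curvature operator in non-divergence form -/
noncomputable def mop {n : ℕ} (f : EuclideanSpace ℝ (Fin n) → ℝ) (x : EuclideanSpace ℝ (Fin n)) :
    ℝ :=
  (∑ i, hess f x (EuclideanSpace.single i 1) (EuclideanSpace.single i 1)) -
    hess f x (gradient f x) (gradient f x) / (1 + ‖gradient f x‖ ^ 2)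

variable {n : ℕ}

theorem inner_gradient (f : EuclideanSpace ℝ (Fin n) → ℝ) (x ξ : EuclideanSpace ℝ (Fin n)) :
    inner ℝ (gradient f x) ξ = fderiv ℝ f x ξ := by
  rw [gradient, InnerProductSpace.toDual_symm_apply]

theorem gradient_apply (f : EuclideanSpace ℝ (Fin n) → ℝ) (x : EuclideanSpace ℝ (Fin n))
    (i : Fin n) :
    gradient f x i = fderiv ℝ f x (EuclideanSpace.single i 1) := by
  rw [← inner_gradient, EuclideanSpace.inner_single_right]
  simp

theorem differentiableAt_fderiv {f : EuclideanSpace ℝ (Fin n) → ℝ} {x : EuclideanSpace ℝ (Fin n)}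
    (hf : ContDiffAt ℝ 2 f x) : DifferentiableAt ℝ (fderiv ℝ f) x := by
  have h := hf.fderiv_right (m := 1) (by norm_num)
  exact h.differentiableAt (by norm_num)

theorem hasFDerivAt_fderiv_apply {f : EuclideanSpace ℝ (Fin n) → ℝ}
    {x : EuclideanSpace ℝ (Fin n)} (hf : ContDiffAt ℝ 2 f x) (ξ : EuclideanSpace ℝ (Fin n)) :
    HasFDerivAt (fun y => fderiv ℝ f y ξ) ((fderiv ℝ (fderiv ℝ f) x).flip ξ) x := by
  have h1 := (differentiableAt_fderiv hf).hasFDerivAt
  have h2 := h1.clm_apply (hasFDerivAt_const ξ x)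
  simpa using h2

theorem norm_gradient_sq (f : EuclideanSpace ℝ (Fin n) → ℝ) (x : EuclideanSpace ℝ (Fin n)) :
    ‖gradient f x‖ ^ 2 = ∑ i, (fderiv ℝ f x (EuclideanSpace.single i 1)) ^ 2 := by
  rw [EuclideanSpace.norm_sq_eq]
  simp [gradient_apply]

theorem gradient_eq_sum (f : EuclideanSpace ℝ (Fin n) → ℝ) (x : EuclideanSpace ℝ (Fin n)) :
    gradient f x = ∑ i, fderiv ℝ f x (EuclideanSpace.single i 1) • EuclideanSpace.single i (1:ℝ) := by
  ext j
  rw [gradient_apply]
  simp [Finset.sum_apply, Pi.single_apply]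

theorem mcf_expand {f : EuclideanSpace ℝ (Fin n) → ℝ} {x : EuclideanSpace ℝ (Fin n)}
    (hf : ContDiffAt ℝ 2 f x) :
    Real.sqrt (1 + ‖gradient f x‖ ^ 2) *
      divergence (fun y => (Real.sqrt (1 + ‖gradient f y‖ ^ 2))⁻¹ • gradient f y) x =
    mop f x := by
  classical
  set g : Fin n → EuclideanSpace ℝ (Fin n) → ℝ := fun i y =>
    fderiv ℝ f y (EuclideanSpace.single i 1) with hg
  set B : Fin n → Fin n → ℝ := fun i k =>
    hess f x (EuclideanSpace.single i 1) (EuclideanSpace.single k 1) with hB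
  have hgd : ∀ i, HasFDerivAt (g i) ((fderiv ℝ (fderiv ℝ f) x).flip (EuclideanSpace.single i 1)) x :=
    fun i => hasFDerivAt_fderiv_apply hf _
  set s : EuclideanSpace ℝ (Fin n) → ℝ := fun y => 1 + ∑ k, (g k y) ^ 2 with hs
  have hspos : 0 < s x := by
    have : 0 ≤ ∑ k, (g k x) ^ 2 := Finset.sum_nonneg (fun k _ => sq_nonneg _)
    simp only [hs]; linarith
  have hsd : HasFDerivAt s (∑ k, (2 * g k x) •
      ((fderiv ℝ (fderiv ℝ f) x).flip (EuclideanSpace.single k 1))) x := by
    have h1 : HasFDerivAt (fun y => ∑ k, (g k y) ^ 2) (∑ k, (2 * g k x) •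
      ((fderiv ℝ (fderiv ℝ f) x).flip (EuclideanSpace.single k 1))) x := by
      apply HasFDerivAt.fun_sum
      intro k _
      have h2 := (hgd k).pow 2
      simpa using h2
    exact h1.const_add 1
  have hsq : Real.sqrt (s x) ≠ 0 := (Real.sqrt_pos.mpr hspos).ne'
  have hr : ∀ y, (Real.sqrt (1 + ‖gradient f y‖ ^ 2)) = Real.sqrt (s y) := by
    intro y; rw [norm_gradient_sq]
  have hcomp : ∀ i, fderiv ℝ (fun y => ((Real.sqrt (1 + ‖gradient f y‖ ^ 2))⁻¹ •
      gradient f y) i) x (EuclideanSpace.single i 1) =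
      (Real.sqrt (s x))⁻¹ * B i i - g i x * (∑ k, g k x * B i k) / (s x * Real.sqrt (s x)) := by
    intro i
    have h1 : (fun y => ((Real.sqrt (1 + ‖gradient f y‖ ^ 2))⁻¹ • gradient f y) i) =
        fun y => (Real.sqrt (s y))⁻¹ * g i y := by
      funext y
      rw [hr, PiLp.smul_apply, smul_eq_mul, gradient_apply]
    rw [h1]
    have h2 := (hsd.sqrt hspos.ne')
    have h3 := (hasDerivAt_inv hsq).comp_hasFDerivAt x h2
    have h4 := h3.mul (hgd i)
    have h5 : fderiv ℝ (fun y => (Real.sqrt (s y))⁻¹ * g i y) x = _ := h4.fderiv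
    rw [h5]
    simp only [add_apply, smul_apply, sum_apply, ContinuousLinearMap.flip_apply, smul_eq_mul,
      Function.comp]
    have h6 : Real.sqrt (s x) ^ 2 = s x := Real.sq_sqrt hspos.le
    have h7 : ∑ k, 2 * g k x * (fderiv ℝ (fderiv ℝ f) x) (EuclideanSpace.single i 1)
        (EuclideanSpace.single k 1) = 2 * ∑ k, g k x * B i k := by
      rw [Finset.mul_sum]
      exact Finset.sum_congr rfl (fun k _ => by simp only [hB, hess]; ring)
    rw [h7, h6]
    have h8 : (fderiv ℝ (fderiv ℝ f) x) (EuclideanSpace.single i 1)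
        (EuclideanSpace.single i 1) = B i i := rfl
    rw [h8]
    field_simp
    ring
  unfold divergence
  rw [Finset.sum_congr rfl (fun i _ => hcomp i), hr, Finset.sum_sub_distrib, mul_sub]
  have e1 : Real.sqrt (s x) * ∑ i, (Real.sqrt (s x))⁻¹ * B i i = ∑ i, B i i := by
    rw [← Finset.mul_sum]
    field_simp
  have e2 : Real.sqrt (s x) * ∑ i, g i x * (∑ k, g k x * B i k) / (s x * Real.sqrt (s x)) =
      (∑ i, g i x * (∑ k, g k x * B i k)) / s x := by
    rw [← Finset.sum_div]
    field_simp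
  rw [e1, e2]
  unfold mop
  congr 1
  have e3 : (1 + ‖gradient f x‖ ^ 2) = s x := by rw [norm_gradient_sq]
  rw [e3]
  congr 1
  have e4 : hess f x (gradient f x) (gradient f x) =
      ∑ i, g i x * (∑ k, g k x * B i k) := by
    unfold hess
    rw [gradient_eq_sum]
    set L := fderiv ℝ (fderiv ℝ f) x with hL
    have e5 : L (∑ i, (fderiv ℝ f x) (EuclideanSpace.single i 1) • EuclideanSpace.single i (1:ℝ)) =
      ∑ i, (fderiv ℝ f x) (EuclideanSpace.single i 1) • L (EuclideanSpace.single i (1:ℝ)) := by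
      rw [map_sum]
      exact Finset.sum_congr rfl (fun i _ => map_smul _ _ _)
    rw [e5, sum_apply]
    apply Finset.sum_congr rfl
    intro i _
    rw [smul_apply, map_sum, smul_eq_mul]
    congr 1
    apply Finset.sum_congr rfl
    intro k _
    rw [map_smul, smul_eq_mul]
    rfl
  rw [e4]

end Pool.Agent.TH618
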