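import Pool.Agent.TH618.Compare

/-!
# The one-variable pieces of the barriers and the strictness inequalities
-/

set_option autoImplicit false

namespace Pool.Agent.TH618

open Set Filter Topology
open scoped ContDiff

/-- the scaled grim reaper profile: `κ/l * (-log cos (l s)) + c` -/
theorem twoDer_V {κ l a : ℝ} (c : ℝ) (hl : l ≠ 0) (ha : 0 < Real.cos (l * a)) :
    TwoDer (fun s => -(κ / l) * Real.log (Real.cos (l * s)) + c) (fun s => κ * Real.tan (l * s))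
      (κ * l * (1 + Real.tan (l * a) ^ 2)) a := by
  have hev : ∀ᶠ s in 𝓝 a, 0 < Real.cos (l * s) := by
    have : Continuous (fun s : ℝ => Real.cos (l * s)) := by fun_prop
    exact this.continuousAt.eventually (lt_mem_nhds ha)
  refine ⟨?_, ?_, ?_⟩
  · have h1 : ContDiff ℝ 2 (fun s : ℝ => Real.cos (l * s)) :=
      Real.contDiff_cos.comp (contDiff_const.mul contDiff_id)
    exact (contDiffAt_const.mul (h1.contDiffAt.log ha.ne')).add contDiffAt_const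
  · filter_upwards [hev] with s hs
    have h1 : HasDerivAt (fun s : ℝ => Real.cos (l * s)) (-Real.sin (l * s) * l) s := by
      simpa using ((hasDerivAt_id s).const_mul l).cos
    have h2 := ((h1.log hs.ne').const_mul (-(κ / l))).add_const c
    have e : -(κ / l) * (-Real.sin (l * s) * l / Real.cos (l * s)) = κ * Real.tan (l * s) := by
      rw [Real.tan_eq_sin_div_cos]; field_simp
    rw [e] at h2
    exact h2
  · have h1 : HasDerivAt (fun s : ℝ => Real.tan (l * s)) (1 / Real.cos (l * a) ^ 2 * l) a := by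
      have h0 : HasDerivAt (fun s : ℝ => l * s) l a := by
        simpa using (hasDerivAt_id a).const_mul l
      exact HasDerivAt.comp (h₂ := Real.tan) (h := fun s : ℝ => l * s) a
        (Real.hasDerivAt_tan ha.ne') h0
    have h2 := h1.const_mul κ
    have e : κ * (1 / Real.cos (l * a) ^ 2 * l) = κ * l * (1 + Real.tan (l * a) ^ 2) := by
      rw [Real.tan_eq_sin_div_cos]
      have := Real.sin_sq_add_cos_sq (l * a)
      field_simp
      rw [add_comm, this]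
      try ring
    rw [e] at h2
    exact h2

theorem twoDer_const (c a : ℝ) : TwoDer (fun _ => c) (fun _ => 0) 0 a :=
  ⟨contDiffAt_const, Eventually.of_forall (fun s => hasDerivAt_const s c), hasDerivAt_const a 0⟩

/-- the Gaussian solution of the heat equation on the line -/
noncomputable def gs (A R s t : ℝ) : ℝ :=
  A * R * (Real.sqrt (R ^ 2 + 4 * t))⁻¹ * Real.exp (-(s ^ 2 / (R ^ 2 + 4 * t)))

theorem gs_nonneg {A R : ℝ} (hA : 0 ≤ A) (hR : 0 ≤ R) (s t : ℝ) : 0 ≤ gs A R s t := by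
  unfold gs; positivity

theorem hasDerivAt_gs_s (A R s t : ℝ) :
    HasDerivAt (fun s => gs A R s t) (-(2 * s / (R ^ 2 + 4 * t)) * gs A R s t) s := by
  unfold gs
  have h1 : HasDerivAt (fun s : ℝ => -(s ^ 2 / (R ^ 2 + 4 * t))) (-(2 * s / (R ^ 2 + 4 * t))) s := by
    have := ((hasDerivAt_id s).fun_pow 2).div_const (R ^ 2 + 4 * t)
    simpa using this.fun_neg
  have h2 := (h1.exp).const_mul (A * R * (Real.sqrt (R ^ 2 + 4 * t))⁻¹)
  refine h2.congr_deriv ?_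
  ring

theorem hasDerivAt_gs_ss (A R s t : ℝ) :
    HasDerivAt (fun s => -(2 * s / (R ^ 2 + 4 * t)) * gs A R s t)
      ((4 * s ^ 2 / (R ^ 2 + 4 * t) ^ 2 - 2 / (R ^ 2 + 4 * t)) * gs A R s t) s := by
  have h1 : HasDerivAt (fun s : ℝ => -(2 * s / (R ^ 2 + 4 * t))) (-(2 / (R ^ 2 + 4 * t))) s := by
    have := ((hasDerivAt_id s).const_mul 2).div_const (R ^ 2 + 4 * t)
    simpa using this.fun_neg
  have h2 := h1.fun_mul (hasDerivAt_gs_s A R s t)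
  refine h2.congr_deriv ?_
  generalize R ^ 2 + 4 * t = τ
  ring

theorem hasDerivAt_gs_t {A R s t : ℝ} (ht : 0 < R ^ 2 + 4 * t) :
    HasDerivAt (fun t => gs A R s t)
      ((4 * s ^ 2 / (R ^ 2 + 4 * t) ^ 2 - 2 / (R ^ 2 + 4 * t)) * gs A R s t) t := by
  have hτ : HasDerivAt (fun t : ℝ => R ^ 2 + 4 * t) 4 t := by
    simpa using ((hasDerivAt_id t).const_mul 4).const_add (R ^ 2)
  have hsq := Real.sqrt_pos.mpr ht
  have h1 := (hτ.sqrt ht.ne').fun_inv hsq.ne'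
  have h2 : HasDerivAt (fun t : ℝ => -(s ^ 2 / (R ^ 2 + 4 * t)))
      (s ^ 2 * 4 / (R ^ 2 + 4 * t) ^ 2) t := by
    have := ((hasDerivAt_const t (s ^ 2)).fun_div hτ ht.ne').fun_neg
    refine this.congr_deriv ?_
    ring
  have h3 := (h1.const_mul (A * R)).fun_mul h2.exp
  unfold gs
  refine h3.congr_deriv ?_
  have h4 : Real.sqrt (R ^ 2 + 4 * t) ^ 2 = R ^ 2 + 4 * t := Real.sq_sqrt ht.le
  have h5 : Real.sqrt (R ^ 2 + 4 * t) ^ 3 = (R ^ 2 + 4 * t) * Real.sqrt (R ^ 2 + 4 * t) := by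
    rw [pow_succ, h4]
  rw [h4]
  field_simp
  ring

theorem twoDer_gs (A R t a : ℝ) :
    TwoDer (fun s => gs A R s t) (fun s => -(2 * s / (R ^ 2 + 4 * t)) * gs A R s t)
      ((4 * a ^ 2 / (R ^ 2 + 4 * t) ^ 2 - 2 / (R ^ 2 + 4 * t)) * gs A R a t) a := by
  refine ⟨?_, Eventually.of_forall (fun s => hasDerivAt_gs_s A R s t), hasDerivAt_gs_ss A R a t⟩
  unfold gs
  have h1 : ContDiff ℝ 2 (fun s : ℝ => A * R * (Real.sqrt (R ^ 2 + 4 * t))⁻¹ *
      Real.exp (-(s ^ 2 / (R ^ 2 + 4 * t)))) := by fun_prop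
  exact h1.contDiffAt

/-- `F = (1/l) log (1 + s)` -/
theorem twoDer_log {l a : ℝ} (ha : 0 < 1 + a) :
    TwoDer (fun s => (1 / l) * Real.log (1 + s)) (fun s => 1 / (l * (1 + s)))
      (-(1 / (l * (1 + a) ^ 2))) a := by
  have hev : ∀ᶠ s in 𝓝 a, 0 < 1 + s := by
    have : Continuous (fun s : ℝ => 1 + s) := by fun_prop
    exact this.continuousAt.eventually (lt_mem_nhds ha)
  refine ⟨?_, ?_, ?_⟩
  · have h1 : ContDiff ℝ 2 (fun s : ℝ => 1 + s) := by fun_prop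
    exact contDiffAt_const.mul (h1.contDiffAt.log ha.ne')
  · filter_upwards [hev] with s hs
    have h1 : HasDerivAt (fun s : ℝ => 1 + s) 1 s := (hasDerivAt_id s).const_add 1
    have h2 := (h1.log hs.ne').const_mul (1 / l)
    refine h2.congr_deriv ?_
    by_cases hl : l = 0
    · simp [hl]
    · field_simp
  · by_cases hl : l = 0
    · subst hl
      simp only [zero_mul, div_zero, neg_zero]
      exact hasDerivAt_const _ _
    have h1 : HasDerivAt (fun s : ℝ => l * (1 + s)) l a := by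
      simpa using ((hasDerivAt_id a).const_add 1).const_mul l
    have h2 : l * (1 + a) ≠ 0 := mul_ne_zero hl ha.ne'
    have h3 := (hasDerivAt_const a (1:ℝ)).fun_div h1 h2
    refine h3.congr_deriv ?_
    field_simp
    ring

/-- `F = √(1 + 2 s)` -/
theorem twoDer_sqrt {a : ℝ} (ha : 0 < 1 + 2 * a) :
    TwoDer (fun s => Real.sqrt (1 + 2 * s)) (fun s => 1 / Real.sqrt (1 + 2 * s))
      (-(1 / Real.sqrt (1 + 2 * a)) ^ 3) a := by
  have hev : ∀ᶠ s in 𝓝 a, 0 < 1 + 2 * s := by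
    have : Continuous (fun s : ℝ => 1 + 2 * s) := by fun_prop
    exact this.continuousAt.eventually (lt_mem_nhds ha)
  have hd : ∀ s : ℝ, HasDerivAt (fun s : ℝ => 1 + 2 * s) 2 s := fun s => by
    simpa using ((hasDerivAt_id s).const_mul 2).const_add 1
  refine ⟨?_, ?_, ?_⟩
  · have h1 : ContDiff ℝ 2 (fun s : ℝ => 1 + 2 * s) := by fun_prop
    exact h1.contDiffAt.sqrt ha.ne'
  · filter_upwards [hev] with s hs
    have h2 := (hd s).sqrt hs.ne'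
    refine h2.congr_deriv ?_
    have := Real.sqrt_pos.mpr hs
    field_simp
  · have hs := Real.sqrt_pos.mpr ha
    have h2 := (hasDerivAt_const a (1:ℝ)).fun_div ((hd a).sqrt ha.ne') hs.ne'
    refine h2.congr_deriv ?_
    field_simp
    ring

/-- `F = c (log ρ' - log s)` -/
theorem twoDer_neglog {c ρ a : ℝ} (ha : 0 < a) :
    TwoDer (fun s => c * (ρ - Real.log s)) (fun s => -(c / s)) (c / a ^ 2) a := by
  have hev : ∀ᶠ s in 𝓝 a, 0 < s := lt_mem_nhds ha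
  refine ⟨?_, ?_, ?_⟩
  · exact contDiffAt_const.mul (contDiffAt_const.sub (contDiffAt_id.log ha.ne'))
  · filter_upwards [hev] with s hs
    have h2 := ((Real.hasDerivAt_log hs.ne').const_sub ρ).const_mul c
    refine h2.congr_deriv ?_
    field_simp
  · have h3 := ((hasDerivAt_const a c).fun_div (hasDerivAt_id a) ha.ne').fun_neg
    refine h3.congr_deriv ?_
    simp
    ring

/-- `G = E cos (l s)` -/
theorem twoDer_cos (E l a : ℝ) :
    TwoDer (fun s => E * Real.cos (l * s)) (fun s => -(l * E * Real.sin (l * s)))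
      (-(l ^ 2 * E * Real.cos (l * a))) a := by
  refine ⟨?_, ?_, ?_⟩
  · have h1 : ContDiff ℝ 2 (fun s : ℝ => E * Real.cos (l * s)) :=
      contDiff_const.mul (Real.contDiff_cos.comp (contDiff_const.mul contDiff_id))
    exact h1.contDiffAt
  · refine Eventually.of_forall (fun s => ?_)
    have h1 : HasDerivAt (fun s : ℝ => Real.cos (l * s)) (-Real.sin (l * s) * l) s := by
      simpa using ((hasDerivAt_id s).const_mul l).cos
    have h2 := h1.const_mul E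
    refine h2.congr_deriv ?_
    ring
  · have h1 : HasDerivAt (fun s : ℝ => Real.sin (l * s)) (Real.cos (l * a) * l) a := by
      simpa using ((hasDerivAt_id a).const_mul l).sin
    have h2 := (h1.const_mul (l * E)).fun_neg
    refine h2.congr_deriv ?_
    ring

/-! ### Strictness -/

/-- the algebra of the barriers of the first type -/
theorem strict_I {κ l v η f₁ F₂ g₂ ht δ P pj m : ℝ} (hη : 0 < η) (hP : 0 ≤ P)
    (hX : 0 ≤ -κ * l * v ^ 2 * f₁ ^ 2 * P - F₂ * (1 + v ^ 2) * P +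
      f₁ ^ 3 * (g₂ * pj ^ 2 + 2 * δ * P) +
      f₁ * (ht - g₂ - 2 * δ * m) * (1 + v ^ 2 + f₁ ^ 2 * P)) :
    κ * l * (1 + v ^ 2) + F₂ * P + f₁ * (g₂ + 2 * δ * m) -
      (κ * l * (1 + v ^ 2) * v ^ 2 + F₂ * (f₁ * P) ^ 2 +
        f₁ * (g₂ * f₁ ^ 2 * pj ^ 2 + 2 * δ * f₁ ^ 2 * P)) / (1 + (v ^ 2 + f₁ ^ 2 * P)) <
      κ * l + η + f₁ * ht := by
  have hden : 0 < 1 + (v ^ 2 + f₁ ^ 2 * P) := by positivity
  have key : κ * l + η + f₁ * ht - (κ * l * (1 + v ^ 2) + F₂ * P + f₁ * (g₂ + 2 * δ * m) -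
      (κ * l * (1 + v ^ 2) * v ^ 2 + F₂ * (f₁ * P) ^ 2 +
        f₁ * (g₂ * f₁ ^ 2 * pj ^ 2 + 2 * δ * f₁ ^ 2 * P)) / (1 + (v ^ 2 + f₁ ^ 2 * P))) =
      η + (-κ * l * v ^ 2 * f₁ ^ 2 * P - F₂ * (1 + v ^ 2) * P +
      f₁ ^ 3 * (g₂ * pj ^ 2 + 2 * δ * P) +
      f₁ * (ht - g₂ - 2 * δ * m) * (1 + v ^ 2 + f₁ ^ 2 * P)) / (1 + (v ^ 2 + f₁ ^ 2 * P)) := by
    field_simp
    ring
  have h2 := div_nonneg hX hden.le
  linarith

/-- the algebra of the barrier of the second type -/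
theorem strict_II {l η Θ b Ec g s ν Y β m R : ℝ} (hη : 0 < η) (hl : 0 < l) (hΘ : 0 < Θ)
    (hβ : 0 < β) (hR : 0 < R) (hm : 0 ≤ m) (hY : 0 ≤ Y)
    (hb : b = β * (R ^ 2 + Y ^ 2)) (hΘE : Θ = Ec - b) (hν1 : l ≤ (ν - l ^ 2) * R)
    (hν2 : 4 * m ≤ (ν - l ^ 2) * R ^ 2) (hν : l ^ 2 ≤ ν)
    (hs : s = -(l ^ 2 * Ec)) :
    (1 / (l * Θ ^ 2)) * g ^ 2 + -(1 / (l * Θ)) * s + (1 / (l * Θ ^ 2)) * (4 * β ^ 2 * Y ^ 2) +
      -(1 / (l * Θ)) * (0 + 2 * (-β) * m) -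
      ((1 / (l * Θ ^ 2)) * (g * (-(1 / (l * Θ)) * g) + -(1 / (l * Θ)) * (4 * β ^ 2 * Y ^ 2)) ^ 2 +
        -(1 / (l * Θ)) * (s * (-(1 / (l * Θ)) * g) ^ 2 +
          2 * (-β) * (-(1 / (l * Θ))) ^ 2 * (4 * β ^ 2 * Y ^ 2))) /
        (1 + ((-(1 / (l * Θ)) * g) ^ 2 + (-(1 / (l * Θ))) ^ 2 * (4 * β ^ 2 * Y ^ 2))) <
      η + (-(1 / (l * Θ))) * (-(ν * Ec)) := by
  have hb0 : 0 < b := by rw [hb]; positivity
  have hQ : 0 < l ^ 2 * Θ ^ 2 + (g ^ 2 + 4 * β ^ 2 * Y ^ 2) := by positivity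
  have hlΘ : 0 < l * Θ := by positivity
  have key : η + (-(1 / (l * Θ))) * (-(ν * Ec)) -
    ((1 / (l * Θ ^ 2)) * g ^ 2 + -(1 / (l * Θ)) * s + (1 / (l * Θ ^ 2)) * (4 * β ^ 2 * Y ^ 2) +
      -(1 / (l * Θ)) * (0 + 2 * (-β) * m) -
      ((1 / (l * Θ ^ 2)) * (g * (-(1 / (l * Θ)) * g) + -(1 / (l * Θ)) * (4 * β ^ 2 * Y ^ 2)) ^ 2 +
        -(1 / (l * Θ)) * (s * (-(1 / (l * Θ)) * g) ^ 2 +
          2 * (-β) * (-(1 / (l * Θ))) ^ 2 * (4 * β ^ 2 * Y ^ 2))) /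
        (1 + ((-(1 / (l * Θ)) * g) ^ 2 + (-(1 / (l * Θ))) ^ 2 * (4 * β ^ 2 * Y ^ 2)))) =
      η + (1 / (l * Θ)) * (ν * Ec + s - 2 * β * m -
        (l ^ 2 * Θ * (g ^ 2 + 4 * β ^ 2 * Y ^ 2) + s * g ^ 2 - 2 * β * (4 * β ^ 2 * Y ^ 2)) /
        (l ^ 2 * Θ ^ 2 + (g ^ 2 + 4 * β ^ 2 * Y ^ 2))) := by
    field_simp
    ring
  have h1 : (l ^ 2 * Θ * (g ^ 2 + 4 * β ^ 2 * Y ^ 2) + s * g ^ 2 - 2 * β * (4 * β ^ 2 * Y ^ 2)) /
        (l ^ 2 * Θ ^ 2 + (g ^ 2 + 4 * β ^ 2 * Y ^ 2)) ≤ l * β * Y := by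
    rw [div_le_iff₀ hQ]
    have e1 : s = -(l ^ 2 * (Θ + b)) := by rw [hs, hΘE]; ring
    rw [e1]
    have h2 : 0 ≤ l * β * Y * (l * Θ - 2 * β * Y) ^ 2 := by positivity
    have h3 : 0 ≤ l * β * Y * g ^ 2 := by positivity
    have h4 : 0 ≤ l ^ 2 * b * g ^ 2 := by positivity
    have h5 : 0 ≤ β * (4 * β ^ 2 * Y ^ 2) := by positivity
    nlinarith
  have h2 : l * β * Y ≤ (ν - l ^ 2) * b / 2 := by
    have h3 : 2 * R * Y ≤ R ^ 2 + Y ^ 2 := by nlinarith [sq_nonneg (R - Y)]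
    have h4 : l * β * Y ≤ (ν - l ^ 2) * R * (β * Y) := by
      have : l * (β * Y) ≤ (ν - l ^ 2) * R * (β * Y) :=
        mul_le_mul_of_nonneg_right hν1 (by positivity)
      linarith
    have h5 : (ν - l ^ 2) * β * (2 * R * Y) ≤ (ν - l ^ 2) * β * (R ^ 2 + Y ^ 2) := by
      apply mul_le_mul_of_nonneg_left h3
      have : 0 ≤ ν - l ^ 2 := by linarith
      positivity
    rw [hb]
    nlinarith
  have h3 : 2 * β * m ≤ (ν - l ^ 2) * b / 2 := by
    have h4 : β * (4 * m) ≤ β * ((ν - l ^ 2) * R ^ 2) := mul_le_mul_of_nonneg_left hν2 hβ.le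
    have h5 : 0 ≤ (ν - l ^ 2) * β * Y ^ 2 := by
      have : 0 ≤ ν - l ^ 2 := by linarith
      positivity
    rw [hb]
    nlinarith
  have h4 : 0 ≤ ν * Ec + s - 2 * β * m -
        (l ^ 2 * Θ * (g ^ 2 + 4 * β ^ 2 * Y ^ 2) + s * g ^ 2 - 2 * β * (4 * β ^ 2 * Y ^ 2)) /
        (l ^ 2 * Θ ^ 2 + (g ^ 2 + 4 * β ^ 2 * Y ^ 2)) := by
    have e1 : ν * Ec + s = (ν - l ^ 2) * (Θ + b) := by rw [hs, hΘE]; ring
    have h5 : 0 ≤ (ν - l ^ 2) * Θ := by
      have : 0 ≤ ν - l ^ 2 := by linarith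
      positivity
    rw [e1]
    nlinarith
  have h5 : 0 ≤ (1 / (l * Θ)) * (ν * Ec + s - 2 * β * m -
        (l ^ 2 * Θ * (g ^ 2 + 4 * β ^ 2 * Y ^ 2) + s * g ^ 2 - 2 * β * (4 * β ^ 2 * Y ^ 2)) /
        (l ^ 2 * Θ ^ 2 + (g ^ 2 + 4 * β ^ 2 * Y ^ 2))) := mul_nonneg (by positivity) h4
  linarith

end Pool.Agent.TH618
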