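import Pool.Agent.TH618.Grad

/-!
# Touching lemma
-/

set_option autoImplicit false

namespace Pool.Agent.TH618

open Set Filter Topology
open scoped ContDiff

variable {n : ℕ}

/-- first derivative along a line -/
theorem hasDerivAt_line {f : EuclideanSpace ℝ (Fin n) → ℝ} {x ξ : EuclideanSpace ℝ (Fin n)} {s : ℝ}
    (hf : DifferentiableAt ℝ f (x + s • ξ)) :
    HasDerivAt (fun r : ℝ => f (x + r • ξ)) (fderiv ℝ f (x + s • ξ) ξ) s := by
  have h1 : HasDerivAt (fun r : ℝ => x + r • ξ) ξ s := by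
    simpa using ((hasDerivAt_id s).smul_const ξ).const_add x
  exact hf.hasFDerivAt.comp_hasDerivAt s h1

theorem tendsto_line (x ξ : EuclideanSpace ℝ (Fin n)) :
    Tendsto (fun r : ℝ => x + r • ξ) (𝓝 0) (𝓝 x) := by
  have : Continuous (fun r : ℝ => x + r • ξ) := by fun_prop
  have h := this.tendsto 0
  simpa using h

/-- second derivative along a line -/
theorem hasDerivAt_line2 {f : EuclideanSpace ℝ (Fin n) → ℝ} {x ξ : EuclideanSpace ℝ (Fin n)}
    (hf : ContDiffAt ℝ 2 f x) :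
    HasDerivAt (fun r : ℝ => fderiv ℝ f (x + r • ξ) ξ) (hess f x ξ ξ) 0 := by
  have h1 : HasDerivAt (fun r : ℝ => x + r • ξ) ξ 0 := by
    simpa using ((hasDerivAt_id (0:ℝ)).smul_const ξ).const_add x
  have h2 : HasFDerivAt (fun y => fderiv ℝ f y ξ) ((fderiv ℝ (fderiv ℝ f) x).flip ξ)
      (x + (0:ℝ) • ξ) := by
    simpa using hasFDerivAt_fderiv_apply hf ξ
  have h3 := h2.comp_hasDerivAt (0:ℝ) h1
  exact h3

/-- At a local maximum the second derivatives along lines are nonpositive. -/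
theorem hess_nonpos_of_isLocalMax {f : EuclideanSpace ℝ (Fin n) → ℝ} {x : EuclideanSpace ℝ (Fin n)}
    (hf : ContDiffAt ℝ 2 f x) (hmax : IsLocalMax f x) (ξ : EuclideanSpace ℝ (Fin n)) :
    hess f x ξ ξ ≤ 0 := by
  by_contra hcon
  push Not at hcon
  set φ : ℝ → ℝ := fun r => f (x + r • ξ) with hφ
  have hdiff : ∀ᶠ y in 𝓝 x, DifferentiableAt ℝ f y := by
    have h1 : ∀ᶠ y in 𝓝 x, ContDiffAt ℝ 2 f y := hf.eventually (by norm_num)
    exact h1.mono (fun y hy => hy.differentiableAt (by norm_num))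
  have hφ' : ∀ᶠ r in 𝓝 (0:ℝ), HasDerivAt φ (fderiv ℝ f (x + r • ξ) ξ) r := by
    have := (tendsto_line x ξ).eventually hdiff
    exact this.mono (fun r hr => hasDerivAt_line hr)
  have hd : deriv φ =ᶠ[𝓝 0] fun r => fderiv ℝ f (x + r • ξ) ξ :=
    hφ'.mono (fun r hr => hr.deriv)
  have hd2 : deriv (deriv φ) 0 = hess f x ξ ξ := by
    rw [hd.deriv_eq]
    exact (hasDerivAt_line2 hf).deriv
  have hmaxφ : IsLocalMax φ 0 := by
    have h1 : ∀ᶠ y in 𝓝 x, f y ≤ f x := hmax
    have h2 := (tendsto_line x ξ).eventually h1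
    simpa [IsLocalMax, IsMaxFilter, hφ] using h2
  have hd0 : deriv φ 0 = 0 := hmaxφ.deriv_eq_zero
  have hcont : ContinuousAt φ 0 := (hφ'.self_of_nhds).continuousAt
  have hmin : IsLocalMin φ 0 := isLocalMin_of_deriv_deriv_pos (by rw [hd2]; exact hcon) hd0 hcont
  have hconst : φ =ᶠ[𝓝 0] fun _ => φ 0 := by
    filter_upwards [hmaxφ, hmin] with r h1 h2
    exact le_antisymm h1 h2
  have h3 : deriv φ =ᶠ[𝓝 0] fun _ => 0 := by
    have := hconst.deriv
    simpa using this
  have h4 : deriv (deriv φ) 0 = 0 := by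
    rw [h3.deriv_eq]; simp
  rw [hd2] at h4
  linarith

theorem hess_symm {f : EuclideanSpace ℝ (Fin n) → ℝ} {x : EuclideanSpace ℝ (Fin n)}
    (hf : ContDiffAt ℝ 2 f x) (ξ η : EuclideanSpace ℝ (Fin n)) : hess f x ξ η = hess f x η ξ := by
  have h := hf.isSymmSndFDerivAt (by simp)
  exact h ξ η

/-- For a negative semidefinite symmetric form the trace is at most the value at `q` divided by
`1 + |q|²`. -/
theorem trace_le {f : EuclideanSpace ℝ (Fin n) → ℝ} {x : EuclideanSpace ℝ (Fin n)}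
    (hf : ContDiffAt ℝ 2 f x) (hneg : ∀ ξ, hess f x ξ ξ ≤ 0) (q : EuclideanSpace ℝ (Fin n)) :
    (∑ i, hess f x (EuclideanSpace.single i 1) (EuclideanSpace.single i 1)) -
      hess f x q q / (1 + ‖q‖ ^ 2) ≤ 0 := by
  classical
  set L := fderiv ℝ (fderiv ℝ f) x with hL
  set B : Fin n → Fin n → ℝ := fun i k =>
    hess f x (EuclideanSpace.single i 1) (EuclideanSpace.single k 1) with hB
  have hBs : ∀ i k, B i k = B k i := fun i k => hess_symm hf _ _
  have hBd : ∀ i, B i i ≤ 0 := fun i => hneg _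
  -- Cauchy-Schwarz for the entries
  have hCS : ∀ i k, (B i k) ^ 2 ≤ B i i * B k k := by
    intro i k
    have key : ∀ a b : ℝ, a ^ 2 * B i i + 2 * a * b * B i k + b ^ 2 * B k k ≤ 0 := by
      intro a b
      have h1 := hneg (a • EuclideanSpace.single i (1:ℝ) + b • EuclideanSpace.single k (1:ℝ))
      have h2 : hess f x (a • EuclideanSpace.single i (1:ℝ) + b • EuclideanSpace.single k (1:ℝ))
          (a • EuclideanSpace.single i (1:ℝ) + b • EuclideanSpace.single k (1:ℝ)) =
          a ^ 2 * B i i + a * b * B i k + a * b * B k i + b ^ 2 * B k k := by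
        simp only [hB, hess, map_add, map_smul, add_apply, smul_apply, smul_eq_mul]
        ring
      rw [h2, hBs k i] at h1
      linarith
    by_contra hcon
    push Not at hcon
    rcases eq_or_lt_of_le (hBd k) with h0 | h0
    · -- B k k = 0
      rw [h0] at hcon
      have hne : B i k ≠ 0 := by
        intro h; rw [h] at hcon; simp at hcon
      have h4 := key 1 ((1 - B i i) / (2 * B i k))
      have h5 : 2 * 1 * ((1 - B i i) / (2 * B i k)) * B i k = 1 - B i i := by
        field_simp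
      rw [h0, h5] at h4
      linarith
    · have h3 := key (B k k) (-(B i k))
      have h4 : (B k k) * (B i i * B k k - (B i k) ^ 2) ≤ 0 := by nlinarith
      have h5 : 0 < (B k k) * (B i i * B k k - (B i k) ^ 2) := by
        apply mul_pos_of_neg_of_neg h0; linarith
      linarith
  have hq : hess f x q q = ∑ i, ∑ k, q i * q k * B i k := by
    have hqs : q = ∑ i, q i • EuclideanSpace.single i (1:ℝ) := by
      ext j
      simp [Finset.sum_apply, Pi.single_apply]
    have e5 : L (∑ i, q i • EuclideanSpace.single i (1:ℝ)) =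
      ∑ i, q i • L (EuclideanSpace.single i (1:ℝ)) := by
      rw [map_sum]
      exact Finset.sum_congr rfl (fun i _ => map_smul _ _ _)
    have : hess f x q q = L q q := rfl
    rw [this]
    conv_lhs => rw [hqs]
    rw [e5, sum_apply]
    apply Finset.sum_congr rfl
    intro i _
    rw [smul_apply, map_sum, smul_eq_mul, Finset.mul_sum]
    apply Finset.sum_congr rfl
    intro k _
    rw [map_smul, smul_eq_mul]
    simp only [hB, hess]
    ring
  -- bound of `-hess q q`
  have hbound : -(hess f x q q) ≤ ‖q‖ ^ 2 * (-(∑ i, B i i)) := by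
    have h1 : -(hess f x q q) ≤ (∑ i, |q i| * Real.sqrt (-(B i i))) ^ 2 := by
      rw [hq, sq, Finset.sum_mul_sum, ← Finset.sum_neg_distrib]
      apply Finset.sum_le_sum
      intro i _
      rw [← Finset.sum_neg_distrib]
      apply Finset.sum_le_sum
      intro k _
      have h2 : |B i k| ≤ Real.sqrt (-(B i i)) * Real.sqrt (-(B k k)) := by
        rw [← Real.sqrt_mul (by linarith [hBd i])]
        apply Real.abs_le_sqrt
        nlinarith [hCS i k]
      calc -(q i * q k * B i k) ≤ |q i * q k * B i k| := neg_le_abs _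
        _ = |q i| * |q k| * |B i k| := by rw [abs_mul, abs_mul]
        _ ≤ |q i| * |q k| * (Real.sqrt (-(B i i)) * Real.sqrt (-(B k k))) := by
            apply mul_le_mul_of_nonneg_left h2; positivity
        _ = _ := by ring
    have h2 : (∑ i, |q i| * Real.sqrt (-(B i i))) ^ 2 ≤
        (∑ i, |q i| ^ 2) * (∑ i, (Real.sqrt (-(B i i))) ^ 2) :=
      Finset.sum_mul_sq_le_sq_mul_sq _ _ _
    have h3 : (∑ i, |q i| ^ 2) = ‖q‖ ^ 2 := by
      rw [EuclideanSpace.norm_sq_eq]
      simp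
    have h4 : (∑ i, (Real.sqrt (-(B i i))) ^ 2) = -(∑ i, B i i) := by
      rw [← Finset.sum_neg_distrib]
      apply Finset.sum_congr rfl
      intro i _
      rw [Real.sq_sqrt (by linarith [hBd i])]
    rw [h3, h4] at h2
    exact h1.trans h2
  have htr : ∑ i, B i i ≤ 0 := Finset.sum_nonpos (fun i _ => hBd i)
  have hpos : 0 < 1 + ‖q‖ ^ 2 := by positivity
  rw [sub_nonpos, le_div_iff₀ hpos]
  show (∑ i, B i i) * (1 + ‖q‖ ^ 2) ≤ hess f x q q
  nlinarith

/-- **Touching lemma.** If `u` solves the equation at `(x₀, t₀)` and `u - Φ` has a maximum there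
(backwards in time), then `Φ_t ≤ M(Φ)` at that point. -/
theorem touch {u Φ : EuclideanSpace ℝ (Fin n) → ℝ → ℝ} {x₀ : EuclideanSpace ℝ (Fin n)} {t₀ φt ut : ℝ}
    (hu : ContDiffAt ℝ 2 (fun x => u x t₀) x₀) (hut : HasDerivAt (fun s => u x₀ s) ut t₀)
    (hueq : ut = mop (fun x => u x t₀) x₀)
    (hΦ : ContDiffAt ℝ 2 (fun x => Φ x t₀) x₀) (hΦt : HasDerivAt (fun s => Φ x₀ s) φt t₀)
    (hmax : IsLocalMax (fun x => u x t₀ - Φ x t₀) x₀)
    (hback : ∀ᶠ s in 𝓝[<] t₀, u x₀ s - Φ x₀ s ≤ u x₀ t₀ - Φ x₀ t₀) :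
    φt ≤ mop (fun x => Φ x t₀) x₀ := by
  -- time derivative
  have h1 : φt ≤ ut := by
    have hd : HasDerivAt (fun s => u x₀ s - Φ x₀ s) (ut - φt) t₀ := hut.sub hΦt
    have h2 := hd.hasDerivWithinAt (s := Iio t₀)
    rw [hasDerivWithinAt_iff_tendsto_slope' (by simp)] at h2
    have h3 : ∀ᶠ s in 𝓝[<] t₀, 0 ≤ slope (fun s => u x₀ s - Φ x₀ s) t₀ s := by
      filter_upwards [hback, self_mem_nhdsWithin] with s hs hs'
      rw [slope_def_field]
      have hs'' : s < t₀ := hs'
      apply div_nonneg_of_nonpos <;> linarith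
    have := ge_of_tendsto h2 h3
    linarith
  -- gradients agree
  have hw : ContDiffAt ℝ 2 (fun x => u x t₀ - Φ x t₀) x₀ := hu.sub hΦ
  have hud := hu.differentiableAt (by norm_num)
  have hΦd := hΦ.differentiableAt (by norm_num)
  have hf0 : fderiv ℝ (fun x => u x t₀) x₀ = fderiv ℝ (fun x => Φ x t₀) x₀ := by
    have h2 := hmax.fderiv_eq_zero
    have h3 : fderiv ℝ (fun x => u x t₀ - Φ x t₀) x₀ =
        fderiv ℝ (fun x => u x t₀) x₀ - fderiv ℝ (fun x => Φ x t₀) x₀ := fderiv_fun_sub hud hΦd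
    rw [h3] at h2
    exact sub_eq_zero.mp h2
  have hg : gradient (fun x => u x t₀) x₀ = gradient (fun x => Φ x t₀) x₀ := by
    rw [gradient, gradient, hf0]
  -- second derivatives
  have hhess : ∀ ξ η, hess (fun x => u x t₀ - Φ x t₀) x₀ ξ η =
      hess (fun x => u x t₀) x₀ ξ η - hess (fun x => Φ x t₀) x₀ ξ η := by
    intro ξ η
    have e1 : ∀ᶠ y in 𝓝 x₀, ContDiffAt ℝ 2 (fun x => u x t₀) y := hu.eventually (by norm_num)
    have e2 : ∀ᶠ y in 𝓝 x₀, ContDiffAt ℝ 2 (fun x => Φ x t₀) y := hΦ.eventually (by norm_num)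
    have e3 : fderiv ℝ (fun x => u x t₀ - Φ x t₀) =ᶠ[𝓝 x₀]
        fun y => fderiv ℝ (fun x => u x t₀) y - fderiv ℝ (fun x => Φ x t₀) y := by
      filter_upwards [e1, e2] with y h1 h2
      exact fderiv_fun_sub (h1.differentiableAt (by norm_num)) (h2.differentiableAt (by norm_num))
    have e4 : fderiv ℝ (fderiv ℝ (fun x => u x t₀ - Φ x t₀)) x₀ =
        fderiv ℝ (fderiv ℝ (fun x => u x t₀)) x₀ - fderiv ℝ (fderiv ℝ (fun x => Φ x t₀)) x₀ := by
      rw [e3.fderiv_eq]
      exact fderiv_fun_sub (differentiableAt_fderiv hu) (differentiableAt_fderiv hΦ)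
    unfold hess
    rw [e4]
    rfl
  have h4 := trace_le hw (fun ξ => hess_nonpos_of_isLocalMax hw hmax ξ)
    (gradient (fun x => Φ x t₀) x₀)
  have h5 : mop (fun x => u x t₀) x₀ - mop (fun x => Φ x t₀) x₀ ≤ 0 := by
    unfold mop
    rw [hg]
    have h6 : ∀ A B C D E : ℝ, (A - B) - (C - D) / E ≤ 0 → (A - C / E) - (B - D / E) ≤ 0 := by
      intro A B C D E h
      rw [sub_div] at h
      linarith
    apply h6
    rw [← Finset.sum_sub_distrib]
    simp only [hhess] at h4
    exact h4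
  linarith

end Pool.Agent.TH618
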